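import Pool.Agent.Lib.FBC.X5.Base

set_option autoImplicit false
set_option linter.unusedVariables false

/-!
The flow on the subdivision is a train track whose long-lived illegal turns are Nielsen apexes.
-/

namespace Pool.Agent.Lib.FBC.X5

open Forest T2

namespace IMM

variable {G : Type} [Group G] {d : Dg G} {Y Y' : Forest d} {F : Flow Y} {Mk : Y.Dir → G → Prop}
  {F' : Flow Y'} {ι : Hom Y Y' 0} {bs : Y'.E → Y.E} {a b x : Y.V}

lemma lev_ι (ι : Hom Y Y' 0) (v : Y.V) : Y'.lev (ι v) = Y.lev v := (ι.lev_map v).trans (add_zero _)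

lemma it_fix {s : Flow Y} {p : Y.V} {δ : G} (h : s.σ p = δ • p) (n : ℕ) :
    s.σ^[n] p = δ ^ n • p := by
  induction n with
  | zero => simp
  | succ n ih => rw [it_succ, ih, σ_smul, h, pow_succ, mul_smul]

/-- an arm that is still alive has passed the fixed point -/
lemma pass {s : Flow Y} (T : s.TT) {y X Z u w m p q : Y.V} {δ : G} {M : ℕ} (hX : s.LegalP y X)
    (hZ : s.LegalP y Z) (hu : Y.btw y u X) (hw : Y.btw y w Z) (m1 : Y.btw y m X)
    (m2 : Y.btw y m Z) (p1 : Y.btw m p X) (q1 : Y.btw m q Z) (pq : Y.btw p m q) (hp : p ≠ m)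
    (fp : s.σ p = δ • p) (fq : s.σ q = δ • q) (hM : Y.dist p q ≤ M) (hA : Alive s M u y w) :
    Y.btw u p q := by
  have p2 := m1.trans_right p1
  by_cases e : u = p
  · rw [e]
    exact btw_left pq.lev3
  rcases hu.total p2 with t | t
  · exfalso
    have h1 := exp_lt T (lp_sub hX hu p2) e M
    have h2 := lp_it2 hX p2 t M
    have h3 := lp_it1 hZ (m2.trans_right q1) M
    have h4 : Y.dist (s.σ^[M] p) (s.σ^[M] q) = Y.dist p q := by
      rw [it_fix fp, it_fix fq, Forest.dist_smul]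
    obtain ⟨μ, a1, a2, a3⟩ := exists_med h2.lev3 h3.lev1
    have h5 := a2.dist_le
    have h6 := a1.symm.of_dist_le h2.symm (by rw [Forest.dist_comm _ (s.σ^[M] u)]; omega)
    exact ((h3.trans_left (a3.trans_left (h2.trans_right' h6.symm))).total
      (lp_it1 hZ hw M)).elim hA.1 hA.2.1
  · exact (pq.symm.glue' (t.trans_left' (m1.trans_right' p1)) hp.symm).symm

section

variable (h : SubD F Mk F' ι bs)
include h

lemma btw_ι : Y'.btw (ι a) (ι x) (ι b) ↔ Y.btw a x b := by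
  simp only [Forest.btw, lev_ι, h.sd]
  refine and_congr_right fun _ => and_congr_right fun _ => ⟨fun t c => ?_, fun t k => t _⟩
  obtain ⟨k, rfl⟩ := h.surj c
  exact t k

lemma ι_inj (e : ι a = ι b) : a = b :=
  ((btw_ι h (a := b) (x := a) (b := b)).1 (e ▸ btw_refl _)).eq_of_self

lemma mem_H_ι (e : Y'.Dir) : ι a ∈ e.H ↔ a ∈ (bd bs e).H := by
  have : Y'.lev e.src = Y.lev (bd bs e).src :=
    (lev_ed_eq _ _ _).trans ((h.lev e.1).trans (lev_ed_eq _ _ _))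
  rw [mem_H, mem_H, lev_ι, this, h.sd]
  rfl

lemma cross_ι (e : Y'.Dir) : Y'.Cross (ι a) (ι b) e ↔ Y.Cross a b (bd bs e) :=
  and_congr (mem_H_ι h e.rv) (mem_H_ι h e)

lemma cross_in (e : Y'.Dir) : Y'.Cross (ι (bd bs e).src) (ι (bd bs e).tgt) e :=
  (cross_ι h e).2 (cross_self _)

lemma it_ι (n : ℕ) (v : Y.V) : F'.σ^[n] (ι v) = ι (F.σ^[n] v) := by
  induction n with
  | zero => rfl
  | succ n ih => rw [it_succ, it_succ, ih, h.comm]

lemma lp_down (q : F'.LegalP (ι a) (ι b)) : F.LegalP a b :=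
  ⟨by simpa [lev_ι] using q.1, fun x y z hx hy hz e n => (btw_ι h).1 (by
    simpa only [it_ι h] using
      q.2 _ _ _ ((btw_ι h).2 hx) ((btw_ι h).2 hy) ((btw_ι h).2 hz) ((btw_ι h).2 e) n)⟩

lemma mon (q : F.LegalP a b) {x y : Y'.V} (hy : Y'.btw (ι a) y (ι b)) (hx : Y'.btw (ι a) x y) :
    Y'.btw (ι (F.σ a)) (F'.σ x) (F'.σ y) := by
  refine dir_ind (P := fun x => Y'.btw (ι a) x y → Y'.btw (ι (F.σ a)) (F'.σ x) (F'.σ y))
    (fun t => btw_right (h.comm a ▸ lev_σ t.lev1)) (fun e he ih t => ?_) hx.lev2 hx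
  have c := (cross_ι h e).1 ((he.extend_left t).extend_right hy)
  have c1 : Y.btw (F.σ a) (F.σ _) (F.σ _) := lp_it2 q c.btw_tgt c.btw1 1
  exact (ih (he.extend_left t).btw_tgt).trans_left
    ((((btw_ι h).2 c1).trans_right' (h.loc e).2).trans_right (h.loc e).1)

lemma lp_up (T : F.TT) (q : F.LegalP a b) : F'.LegalP (ι a) (ι b) := by
  refine ⟨ι.lev_eq q.1, fun x y z hx hy hz e n => ?_⟩
  induction n generalizing a b x y z with
  | zero => exact e
  | succ n ih =>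
    have k : ∀ {x}, Y'.btw (ι a) x (ι b) → Y'.btw (ι (F.σ a)) (F'.σ x) (ι (F.σ b)) := fun t =>
      h.comm b ▸ mon h q (btw_right t.lev3) t
    refine ih (lp_σ T q) _ _ _ (k hx) (k hy) (k hz) ?_
    rcases hx.total hz with t | t
    · exact (mon h q hz (t.trans_right e)).trans_left' (mon h q hy (t.trans_right' e))
    · exact ((mon h q hx (t.trans_right e.symm)).trans_left'
        (mon h q hy (t.trans_right' e.symm))).symm

lemma lp_edge (T : F.TT) (c : Y.Dir) : F'.LegalP (ι c.src) (ι c.tgt) :=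
  lp_up h T (lp_adj (adj_dir c))

lemma src_ne {e : Y'.Dir} (c : Y.Cross a b (bd bs e)) (t : (bd bs e).src ≠ a) : e.src ≠ ι a :=
  fun q => (btw_src_tgt ((btw_ι h).1 (q ▸ (cross_in h e).btw_src))).elim (fun r => t r.symm)
    fun r => not_mem_H_both (r ▸ tgt_mem_H _) c.1

lemma irich_ι (q : IRich a b) : IRich (ι a) (ι b) := fun i' => by
  obtain ⟨i, hi⟩ := h.orb i'
  obtain ⟨c, c', n, r, r', t, t'⟩ := q i
  obtain ⟨k, k1, k2⟩ := hi c.1 r
  obtain ⟨k', k3, k4⟩ := hi c'.1 r'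
  have key : ∀ e : Y'.Dir, ICross a b (bd bs e) → ICross (ι a) (ι b) e := fun e t =>
    ⟨(cross_ι h e).2 t.1, src_ne h t.1 t.2.1, src_ne h (e := e.rv) t.1.symm t.2.2⟩
  refine ⟨(k, c.2), (k', c'.2), fun e => n (by rw [← k1, ← k3]; exact congrArg bs e), k2, k4,
    key _ ?_, key _ ?_⟩
  · simpa only [bd, k1] using t
  · simpa only [bd, k3] using t'

lemma tt (T : F.TT) : F'.TT where
  ne := let ⟨i⟩ := T.ne; let ⟨k, _⟩ := h.surj ⟨1, i⟩; ⟨k.i⟩
  legal e := lp_sub (lp_up h T (T.legal (bd bs e))) ((h.loc e).2.trans_left (h.loc e).1)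
    (h.loc e).2
  prim e := let ⟨_, _, q, q1, q2⟩ := h.rich e; (irich_ι h q).ext q1 q2

lemma per (hd : Function.Surjective d) (T : F.TT) (p : Per1 F) : Per1 F' := fun a => by
  obtain ⟨e, rfl⟩ := exists_dir_at hd (tt h T).ne a
  rcases h.new e with t | ⟨⟨δ, t⟩, -⟩
  · obtain ⟨γ, q⟩ := p (bd bs e).src
    exact ⟨γ, by rw [t, h.comm, h.comm, q, ι.map_smul]⟩
  · exact ⟨δ, by rw [t, σ_smul, t]⟩

/-- an illegal turn sits at an old vertex -/
lemma old (T : F.TT) {x y z : Y'.V} (hx : F'.LegalP y x) (hz : F'.LegalP y z)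
    (t : Y'.btw x y z) (n : ¬ F'.LegalP x z) : ∃ v, y = ι v := by
  obtain ⟨e, rfl, he⟩ := exists_step hx.1 fun q => n (q ▸ hz)
  obtain ⟨e', r, he'⟩ := exists_step hz.1 fun q => n (q ▸ lp_symm hx)
  refine (h.new e).elim (fun q => ⟨_, q⟩) fun q => (n ?_).elim
  have l : F'.LegalP e.tgt e'.tgt := by
    refine lp_sub (lp_edge h T (bd bs e)) (cross_in h e).btw_tgt ?_
    have := (cross_in h e').btw_tgt
    rcases eq_or_rv (e := bd bs e) (e' := bd bs e') (q.2 e' r).symm with u | u <;> rw [u] at this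
    · exact this
    · simpa using this.symm
  have t1 := t.trans_right' he'.btw_tgt
  exact lp_over (tt h T) (lp_over (tt h T) (lp_symm hx) l he.btw_tgt.symm
    (t1.trans_left' he.btw_tgt.symm) (src_ne_tgt e).symm) hz t1 he'.btw_tgt
    (r ▸ src_ne_tgt e')

/-- a legal arm extends to an old vertex -/
lemma arm (T : F.TT) {x : Y'.V} (hx : F'.LegalP (ι a) x) (n : ι a ≠ x) :
    ∃ b, F'.LegalP (ι a) (ι b) ∧ Y'.btw (ι a) x (ι b) := by
  obtain ⟨e, rfl, he⟩ := exists_last hx.1 n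
  have c := cross_in h e
  exact ⟨_, lp_over (tt h T) hx (lp_right (lp_edge h T _) c.btw_src) he.btw1 c.btw2 (src_ne_tgt e),
    he.btw1.glue' c.btw2 (src_ne_tgt e)⟩

/-- the fixed point on an arm -/
lemma fixp {e : Y.Dir} {δ : G} (c : Y.Cross a b e) (q : F.σ e.tgt = δ • e.tgt ∨ Mk e δ) :
    ∃ p, Y'.btw (ι a) p (ι e.tgt) ∧ p ≠ ι a ∧ F'.σ p = δ • p := by
  have c1 := (btw_ι h).2 c.btw1
  rcases q with q | q
  · exact ⟨_, btw_right c1.lev3, fun r => not_mem_H_both (ι_inj h r ▸ tgt_mem_H e) c.1,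
      by rw [h.comm, q, ι.map_smul]⟩
  · obtain ⟨p, p1, p2, p3⟩ := h.fix e δ q
    refine ⟨p, c1.trans_right p1, fun r => p2 ?_, p3⟩
    have := c1.trans_right' p1
    rw [← r] at this
    exact this.eq_of_self.symm

lemma imm (T : F.TT) (fx : FXm F Mk) : Imm F' := by
  obtain ⟨Λ, -, hΛ⟩ := (EMap.ofHom ι).exists_lip
  obtain ⟨M₀, C, fx⟩ := fx
  have T' := tt h T
  refine ⟨M₀ + Λ * C + 1, fun x y₁ z hx₁ hz₁ n1 n2 n3 => ?_⟩
  obtain ⟨y, y1, y2, y3⟩ := exists_med hx₁.1.symm hz₁.1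
  have hA : Alive F' (2 * (M₀ + Λ * C + 1)) x y z :=
    Alive.med (lp_symm hx₁) hz₁ y1 y3 ⟨n1, fun e => n2 e.symm, n3⟩
  have hx := lp_right (lp_symm hx₁) y1
  have hz := lp_right hz₁ y3
  obtain ⟨v, rfl⟩ := old h T hx hz y2 fun e => n3 (lp_it T' e _)
  obtain ⟨a, a1, a2⟩ := arm h T hx (hA.ne hz)
  obtain ⟨b, b1, b2⟩ := arm h T hz (hA.symm.ne hx)
  have hB : Alive F (2 * (M₀ + Λ * C + 1)) a v b := by
    have := hA.ext a1 b1 a2 b2
    simp only [Alive, it_ι h, btw_ι h] at this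
    exact ⟨this.1, this.2.1, fun e => this.2.2 (lp_up h T e)⟩
  have a3 := lp_down h a1
  have b3 := lp_down h b1
  obtain ⟨m, e, e', δ, ⟨m1, m2, m3⟩, c, c', hC, f, f'⟩ := fx _ _ _ (lp_it T a3 (M₀ + Λ * C))
    (lp_it T b3 (M₀ + Λ * C)) (alive_add.1 (hB.le T a3 b3 (by omega)))
  simp only [← it_succ] at m1 m2 m3 c c'
  obtain ⟨p, p1, p2, p3⟩ := fixp h c f
  obtain ⟨q, q1, q2, q3⟩ := fixp h c' f'
  rw [two_mul, alive_add] at hA
  have u1 := lp_it1 a1 a2 (M₀ + Λ * C + 1)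
  have w1 := lp_it1 b1 b2 (M₀ + Λ * C + 1)
  have l1 := lp_it T' a1 (M₀ + Λ * C + 1)
  have l2 := lp_it T' b1 (M₀ + Λ * C + 1)
  simp only [it_ι h] at hA u1 w1 l1 l2
  have r1 := (btw_ι h).2 m1.symm
  have r2 := (btw_ι h).2 m2
  have p4 := ((btw_ι h).2 c.btw_tgt).trans_left p1
  have q4 := ((btw_ι h).2 c'.btw_tgt).trans_left q1
  have r3 := (btw_ι h).2 ((m3.trans_left' c.btw_tgt.symm).trans_right' c'.btw_tgt)
  have pq := (r3.trans_left' p1.symm).trans_right' q1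
  have hd : Y'.dist p q ≤ M₀ + Λ * C + 1 := by
    have := (r3.trans_left p1.symm).dist_mid (r3.trans_right q1)
    have t : Y'.dist (ι e.tgt) (ι e'.tgt) ≤ _ :=
      hΛ e.tgt e'.tgt (by simpa only [lev_ι] using r3.lev3)
    have := Nat.mul_le_mul_left Λ hC
    omega
  refine ⟨p, ι m, q, ⟨pq, lp_sub l1 (r1.trans_right p4) r1, lp_sub l2 r2 (r2.trans_right q4),
    fun l => p2 ?_, δ, p3, q3⟩, pass T' l1 l2 u1 w1 r1 r2 p4 q4 pq p2 p3 q3 hd hA,
    (pass T' l2 l1 w1 u1 r2 r1 q4 p4 pq.symm q2 q3 p3 (Forest.dist_comm p q ▸ hd) hA.symm).symm⟩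
  have := exp_σ T' l
  rw [p3, q3, Forest.dist_smul] at this
  rw [← eq_of_dist l.1 (by omega)] at pq
  exact pq.eq_of_self.symm

end

end IMM

theorem stIMM : St_IMM := fun _ _ _ _ _ _ _ _ _ _ hd T p fx h =>
  ⟨IMM.tt h T, IMM.per h hd T p, IMM.imm h T fx⟩

end Pool.Agent.Lib.FBC.X5
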