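import Pool.Agent.Lib.FBC.X5.Base
import Pool.Agent.Lib.FBC.X1.PowTT

set_option autoImplicit false
set_option linter.unusedVariables false

/-!
Block MK: transfer to the power `3 k`.
-/

namespace Pool.Agent.Lib.FBC.X5

open Forest T2

variable {G H : Type} [Group G] [Group H] {d : Dg G} {e : Dg H} {j : H →* G} {Y : Forest d}
  {s : Flow Y} {k : ℕ}

namespace MK

lemma it2 (x : Y.V) : s.σ^[k + k] x = s.σ^[k] (s.σ^[k] x) := it_add _ _ _

lemma it3 (x : Y.V) : s.σ^[3 * k] x = s.σ^[k] (s.σ^[k] (s.σ^[k] x)) := by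
  rw [show 3 * k = k + (k + k) by ring, it_add, it_add]

lemma it3' (x : Y.V) : s.σ^[3 * k] x = s.σ^[k + k] (s.σ^[k] x) := by rw [it3, it2]

lemma cube (γ : G) (x : Y.V) : γ ^ 3 • x = γ • γ • γ • x := by
  rw [pow_succ, pow_two, mul_smul, mul_smul]

lemma fix3 {x : Y.V} {γ : G} (h : s.σ^[k] x = γ • x) : s.σ^[3 * k] x = γ ^ 3 • x := by
  rw [it3, h, it_smul, h, it_smul, it_smul, h, cube]

lemma dg_of {x y : Y.V} {γ : G} (h : Y.lev (s.σ^[k] x) = Y.lev (γ • x)) : dg d γ = k := by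
  rw [lev_it', lev_smul'] at h
  omega

lemma lift3 (h : GPow d (3 * k) j e) {γ : G} (q : dg d γ = k) : ∃ δ, j δ = γ ^ 3 :=
  h.lift (by rw [dg_pow, q]; simp)

lemma idesc_tr {n : ℕ} {c c' : Y.Dir} (h : s.IDesc n c c') (g : G) :
    s.IDesc n (c.tr g) (c'.tr g) := by
  refine ⟨?_, fun q => h.2.1 ?_, fun q => h.2.2 ?_⟩
  · simpa only [Flow.Desc, src_tr, tgt_tr, it_smul] using Cross.smul h.1 g
  · simpa only [src_tr, it_smul, smul_left_cancel_iff] using q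
  · simpa only [tgt_tr, it_smul, smul_left_cancel_iff] using q

lemma idesc_add (T : s.TT) {n m : ℕ} {a b c : Y.Dir} (h : s.IDesc n a b) (h' : s.IDesc m b c) :
    s.IDesc (m + n) a c := by
  have := h'.of_cross (lp_it T (lp_adj (adj_dir a)) n) h.1
  simp only [← it_add] at this
  exact this

lemma ord {u w : Y.V} {a b : Y.Dir} (ha : Y.Cross u w a) (hb : Y.Cross u w b) (hne : a ≠ b)
    (h : Y.btw u a.src b.src) : Y.btw u a.tgt b.src := by
  rcases ha.side hb.btw_src with t | t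
  · exact (hne (step_unique ha hb (h.antisymm t))).elim
  · exact ha.btw_tgt.trans_right' t

section chain

variable (T : s.TT) {c : Y.Dir} {γ γ' : G} (h : s.IDesc k c (c.tr γ))
include T h

lemma id2 : s.IDesc (k + k) c (c.tr (γ * γ)) := by
  have := idesc_add T h (idesc_tr h γ)
  rwa [tr_tr] at this

lemma id3 : s.IDesc (3 * k) c (c.tr (γ ^ 3)) := by
  have := idesc_add T h (idesc_tr (id2 T h) γ)
  rwa [tr_tr, show k + k + k = 3 * k by ring, ← pow_three] at this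

lemma cr2 : Y.Cross (γ • s.σ^[k + k] c.src) (γ • s.σ^[k + k] c.tgt) (c.tr (γ ^ 3)) := by
  have := Cross.smul (id2 T h).1 γ
  rwa [tr_tr, ← pow_three] at this

omit h in
lemma leg1 (c : Y.Dir) : s.LegalP (s.σ^[k] c.src) (s.σ^[k] c.tgt) :=
  lp_it T (lp_adj (adj_dir c)) k

lemma c1 (n : ℕ) : Y.btw (s.σ^[n] (s.σ^[k] c.src)) (γ • s.σ^[n] c.src) (γ • s.σ^[n] c.tgt) := by
  simpa only [src_tr, tgt_tr, it_smul] using
    lp_it2 (leg1 T c) (Cross.btw_tgt h.1) (Cross.btw1 h.1) n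

lemma c2 (n : ℕ) : Y.btw (γ • s.σ^[n] c.src) (γ • s.σ^[n] c.tgt) (s.σ^[n] (s.σ^[k] c.tgt)) := by
  simpa only [src_tr, tgt_tr, it_smul] using
    lp_it3 (leg1 T c) (Cross.btw_src h.1) (btw_right (leg1 T c).1) (Cross.btw2 h.1) n

lemma leg2 : s.LegalP (γ • c.tgt) (s.σ^[k] c.tgt) := by
  simpa only [tgt_tr] using lp_right (leg1 T c) (Cross.btw_tgt h.1)

omit T in
lemma ne2 : γ • c.tgt ≠ s.σ^[k] c.tgt := by simpa only [tgt_tr] using h.2.2

lemma far_end (hk : 0 < k) : IRich (γ ^ 3 • c.tgt) (s.σ^[3 * k] c.tgt) := by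
  have h1 := irich_it T (leg2 T h) (ne2 h) (k := k + k) (by omega)
  have h2 := (c2 T h (k + k)).trans_left' (cr2 T h).btw_tgt
  rw [it_smul] at h1
  rw [tgt_tr] at h2
  rw [it3']
  exact h1.ext h2 (btw_right h2.lev3)

lemma c3 : Y.btw (s.σ^[k + k] (s.σ^[k] c.src)) (γ ^ 3 • c.tgt) (γ • s.σ^[k + k] c.tgt) := by
  simpa only [tgt_tr] using (c1 T h (k + k)).trans_right (cr2 T h).btw_tgt

lemma c4 : Y.btw (s.σ^[k + k] (s.σ^[k] c.src)) (γ • s.σ^[k + k] c.src) (γ ^ 3 • c.src) := by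
  simpa only [src_tr] using (c1 T h (k + k)).trans_right' (cr2 T h).btw_src

lemma c5 (h' : s.IDesc k c (c.tr γ')) (hne : γ ≠ γ')
    (q : Y.btw (s.σ^[k] c.src) (γ • c.src) (γ' • c.src)) :
    Y.btw (s.σ^[k + k] (s.σ^[k] c.src)) (γ • s.σ^[k + k] c.tgt) (γ' ^ 3 • c.src) := by
  have h1 := ord h.1 h'.1 (fun t => hne (tr_left_inj (congrArg Prod.fst t)))
    (by simpa only [src_tr] using q)
  have h2 := lp_it2 (leg1 T c) (Cross.btw_src h'.1) h1 (k + k)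
  simp only [src_tr, tgt_tr, it_smul] at h2
  exact (c4 T h').trans_left h2

lemma far_mid (hk : 0 < k) (h' : s.IDesc k c (c.tr γ')) (hne : γ ≠ γ')
    (q : Y.btw (s.σ^[3 * k] c.src) (γ ^ 3 • c.src) (γ' ^ 3 • c.src)) :
    IRich (γ ^ 3 • c.tgt) (γ' ^ 3 • c.src) := by
  rw [it3'] at q
  rcases (Cross.btw_src h.1).total (Cross.btw_src h'.1) with t | t <;> simp only [src_tr] at t
  · have h1 := irich_it T (lp_smul γ (leg2 T h)) (fun t => ne2 h (smul_left_cancel γ t)) hk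
    simp only [it_smul] at h1
    rw [← it2] at h1
    refine h1.ext ?_ ((c5 T h h' hne t).trans_left' (c3 T h))
    have h2 := (c2 T h k).trans_left' (Cross.smul h.1 γ).btw_tgt
    simp only [tgt_tr] at h2
    rw [cube, it2]
    exact h2.smul γ
  · have h1 := q.trans_left ((c5 T h' h hne.symm t).trans_left (c3 T h'))
    have h2 := Cross.btw1 (id3 T h').1
    rw [it3', src_tr, tgt_tr] at h2
    exact (src_ne_tgt c (smul_left_cancel _ (h2.antisymm h1))).elim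

end chain

lemma irich_pow {n : ℕ} {h : GPow d n j e} {u w : (Y.pow h).V} (q : IRich u.1 w.1) :
    IRich u w := fun i => by
  obtain ⟨a, a', h1, h2, h3, h4, h5⟩ := q i
  obtain ⟨b, rfl⟩ := exists_dir_up h (a := a) (h4.1.lev_src ▸ u.2)
  obtain ⟨b', rfl⟩ := exists_dir_up h (a := a') (h5.1.lev_src ▸ u.2)
  exact ⟨b, b', fun t => h1 (congrArg E.up t), h2, h3,
    ⟨cross_pow.2 h4.1, fun t => h4.2.1 (congrArg Subtype.val t),
      fun t => h4.2.2 (congrArg Subtype.val t)⟩,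
    ⟨cross_pow.2 h5.1, fun t => h5.2.1 (congrArg Subtype.val t),
      fun t => h5.2.2 (congrArg Subtype.val t)⟩⟩

end MK

open MK in
theorem stMK : St_MK := by
  intro G H _ _ d e j Y s k h hk3 T hF hP
  have hk : 0 < k := by omega
  refine ⟨T.pow h hk3, fun a => ?_,
    fun c δ => ∃ γ, j δ = γ ^ 3 ∧ s.IDesc k c.up (c.up.tr γ), ⟨?_, ?_, ?_, ?_, ?_⟩, ?_⟩
  · obtain ⟨γ, hγ⟩ := hP a.1
    obtain ⟨δ, hδ⟩ := lift3 h (dg_of (y := a.1) (congrArg Y.lev hγ))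
    refine ⟨δ, Subtype.ext ?_⟩
    show s.σ^[3 * k] (s.σ^[3 * k] a.1) = j δ • s.σ^[3 * k] a.1
    rw [hδ]
    refine fix3 ?_
    rw [it3, hγ, it_smul, hγ, it_smul, it_smul, hγ, ← mul_smul, ← mul_smul]
  · rintro c δ ⟨γ, h1, h2⟩
    refine Flow.idesc_pow.2 ?_
    rw [mul_one, up_tr, h1]
    exact id3 T h2
  · rintro c δ ⟨γ, h1, h2⟩
    refine ⟨γ, h1, ?_, h2.2.2, by simpa using h2.2.1⟩
    simpa only [Flow.Desc, up_rv, tgt_rv, src_rv, rv_tr] using Cross.symm h2.1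
  · rintro c δ g ⟨γ, h1, h2⟩
    refine ⟨j g * γ * (j g)⁻¹, by rw [conj_pow, map_mul, map_mul, map_inv, h1], ?_⟩
    have := idesc_tr h2 (j g)
    rwa [up_tr, tr_tr, inv_mul_cancel_right, ← tr_tr]
  · rintro c δ ⟨γ, h1, h2⟩
    refine irich_pow ?_
    rw [pow_smul, h1]
    exact far_end T h2 hk
  · rintro c δ δ' ⟨γ, h1, h2⟩ ⟨γ', h1', h2'⟩ hne q
    refine irich_pow ?_
    have q' := btw_pow.1 q
    rw [pow_smul, pow_smul, h1, h1'] at q' ⊢
    exact far_mid T h2 hk h2' (fun t => hne (h.inj (by rw [h1, h1', t]))) q'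
  · obtain ⟨M, C, hM⟩ := hF
    refine ⟨M + 1, C, fun x y z hx hz hA => ?_⟩
    have hx' := lp_of_pow T hx
    have hz' := lp_of_pow T hz
    have h1 : Alive s (3 * k * (M + 1)) x.1 y.1 z.1 := by
      simp only [Alive, btw_pow, T.legalP_pow, Flow.pow_iterate] at hA
      exact hA
    have h2 := alive_add.1 (Alive.le T hx' hz' (t := M + (k + k)) (by nlinarith) h1)
    obtain ⟨m, a, a', γ, m1, m2, m3, m4, m5, m6, m7, m8⟩ :=
      hM _ _ _ (lp_it T hx' _) (lp_it T hz' _) h2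
    simp only [← it_add, show k + (k + k) = 3 * k by ring] at m1 m2 m3
    obtain ⟨δ, hδ⟩ := lift3 h (dg_of (y := m) (γ := γ) (by simpa only [src_tr] using m5.lev_src))
    let m' := mkPow ((s.pow h hk3).σ x) m m1.1.lev1
    obtain ⟨b, rfl⟩ := exists_dir_up h (a := a) (m2.lev_src ▸ m'.2)
    obtain ⟨b', rfl⟩ := exists_dir_up h (a := a') (m3.lev_src ▸ m'.2)
    have key : ∀ b : (Y.pow h).Dir, s.Desc k b.up (b.up.tr γ) →
        γ • b.up.src ≠ s.σ^[k] b.up.src → (s.pow h hk3).σ b.tgt = δ • b.tgt ∨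
          ∃ γ, j δ = γ ^ 3 ∧ s.IDesc k b.up (b.up.tr γ) := fun b q1 q2 => by
      by_cases q : s.σ^[k] b.up.tgt = γ • b.up.tgt
      · exact Or.inl (Subtype.ext ((fix3 q).trans (by rw [pow_smul, hδ]; rfl)))
      · exact Or.inr ⟨γ, hδ, q1, by rwa [src_tr], by rw [tgt_tr]; exact Ne.symm q⟩
    exact ⟨m', b, b', δ, ⟨btw_pow.2 m1.1, btw_pow.2 m1.2.1, btw_pow.2 m1.2.2⟩, cross_pow.2 m2,
      cross_pow.2 m3, (dist_pow _ _).trans_le m4, key b m5 m7, key b' m6 m8⟩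

end Pool.Agent.Lib.FBC.X5
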