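import Pool.Agent.Lib.FBC.X5.Base

/-!
Subdivision of a forest at an invariant family of marks.
-/

namespace Pool.Agent.Lib.FBC.X5

open Forest T2

namespace SUB

lemma sort {α : Type} (o : α) {D : Set α} (hD : D.Finite) (p : α → ℕ)
    (inj : Set.InjOn p D) : ∃ (n : ℕ) (γ : ℕ → α), (∀ k < n, γ k ∈ D) ∧
      (∀ k l, k < l → l < n → p (γ k) < p (γ l)) ∧ ∀ x ∈ D, ∃ k < n, x = γ k := by
  let S := hD.toFinset.image p
  let f := S.orderEmbOfFin rfl
  have : ∀ k, ∃ x ∈ D, p x = f k := fun k => by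
    obtain ⟨x, hx, e⟩ := Finset.mem_image.1 (S.orderEmbOfFin_mem rfl k)
    exact ⟨x, hD.mem_toFinset.1 hx, e⟩
  choose g g1 g2 using this
  refine ⟨S.card, fun k => if h : k < S.card then g ⟨k, h⟩ else o, fun k hk => ?_,
    fun k l h hl => ?_, fun x hx => ?_⟩
  · simpa [hk] using g1 _
  · simp only [hl, h.trans hl, dif_pos, g2]
    exact f.strictMono h
  · have : p x ∈ Set.range f := by
      rw [Finset.range_orderEmbOfFin]
      simpa [S] using ⟨x, hx, rfl⟩
    obtain ⟨k, hk⟩ := this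
    exact ⟨k, k.2, by simpa using inj hx (g1 k) (hk.symm.trans (g2 k).symm)⟩

variable {G : Type} [Group G] {d : Dg G} {Y : Forest d}

lemma key {A B L U L' U' P P' : Y.V} (h1 : Y.btw A L U) (h2 : Y.btw L P U) (h3 : Y.btw A U L')
    (h4 : Y.btw A L' U') (h5 : Y.btw L' P' U') (h6 : Y.btw A U' B) :
    (Y.btw A P P' ∧ Y.btw A P' B) ∧ (Y.btw B P' P ∧ Y.btw B P A) ∧
      (Y.btw P U L' ∧ Y.btw P L' P') ∧ Y.btw P' L' U ∧ Y.btw P' U P :=
  have a1 := h1.trans_right h2
  have a2 := h4.trans_right' h5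
  have a4 := a2.trans_left h3
  have a5 := a4.trans_left a1
  have a6 := h6.trans_left (h4.trans_right h5)
  ⟨⟨a5, a6⟩, ⟨(a6.trans_left' a5).symm, (a6.trans_left a5).symm⟩,
    ⟨h3.trans_left' a1, a2.trans_left' (h3.trans_left a1)⟩, (a2.trans_left' h3).symm,
    (a4.trans_left' a1).symm⟩

variable (n : Y.I → ℕ)

/-- vertices of the subdivision -/
def SV : Type := Y.V ⊕ {p : Y.E × ℕ // p.2 < n p.1.i}

instance : MulAction G (SV n) where
  smul g x := match x with
    | .inl v => .inl (g • v)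
    | .inr p => .inr ⟨(g • p.1.1, p.1.2), p.2⟩
  one_smul := by
    rintro (v | p)
    · exact congrArg Sum.inl (one_smul _ _)
    · exact congrArg Sum.inr (Subtype.ext (Prod.ext (one_smul _ _) rfl))
  mul_smul g h := by
    rintro (v | p)
    · exact congrArg Sum.inl (mul_smul _ _ _)
    · exact congrArg Sum.inr (Subtype.ext (Prod.ext (mul_smul _ _ _) rfl))

variable {n} in
/-- a new vertex -/
def nw (p : {p : Y.E × ℕ // p.2 < n p.1.i}) : SV n := .inr p

/-- the points of an old edge -/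
def pt (c : Y.E) (l : ℕ) : SV n :=
  if l = 0 then .inl (c.ed false) else
    if h : l - 1 < n c.i then .inr ⟨(c, l - 1), h⟩ else .inl (c.ed true)

/-- the retraction to the old vertices -/
def rt : SV n → Y.V
  | .inl v => v
  | .inr p => p.1.1.ed false

/-- the walls of the subdivision -/
noncomputable def wd (c : Y.E) (k : ℕ) : SV n → Bool
  | .inl v => c.sd v
  | .inr p => if p.1.1 = c then decide (k ≤ p.1.2) else c.sd (p.1.1.ed false)

variable {n}

lemma pt_zero (c : Y.E) : pt n c 0 = .inl (c.ed false) := if_pos rfl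

lemma pt_succ {c : Y.E} {k : ℕ} (h : k < n c.i) : pt n c (k + 1) = .inr ⟨(c, k), h⟩ := by
  simp [pt, h]

lemma pt_top {c : Y.E} {k : ℕ} (h : n c.i ≤ k) : pt n c (k + 1) = .inl (c.ed true) := by
  simp [pt, h.not_gt]

lemma pt_smul (g : G) (c : Y.E) (l : ℕ) : g • pt n c l = pt n (g • c) l := by
  rcases l with _ | l
  · rw [pt_zero, pt_zero, ed_smul]; rfl
  · rcases lt_or_ge l (n c.i) with h | h
    · rw [pt_succ h, pt_succ (c := g • c) h]; rfl
    · rw [pt_top h, pt_top (c := g • c) h, ed_smul]; rfl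

lemma rt_smul (g : G) (x : SV n) : rt n (g • x) = g • rt n x := by
  rcases x with v | p
  · rfl
  · exact ed_smul _ _ _

lemma lev_pt (c : Y.E) (l : ℕ) : Y.lev (rt n (pt n c l)) = dg d c.g := by
  rcases l with _ | l
  · rw [pt_zero]; exact lev_ed _ _
  · rcases lt_or_ge l (n c.i) with h | h
    · rw [pt_succ h]; exact lev_ed _ _
    · rw [pt_top h]; exact lev_ed _ _

lemma wd_smul (g : G) (c : Y.E) (k : ℕ) (x : SV n) : wd n (g • c) k (g • x) = wd n c k x := by
  rcases x with v | p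
  · exact sd_smul _ _ _
  · show (if g • p.1.1 = g • c then _ else (g • c).sd ((g • p.1.1).ed false)) = if _ then _ else _
    simp only [smul_left_cancel_iff, ed_smul, sd_smul]

lemma wd_pt {c : Y.E} {k : ℕ} (hk : k ≤ n c.i) (l : ℕ) : wd n c k (pt n c l) = decide (k < l) := by
  rcases l with _ | l
  · rw [pt_zero]; simp [wd]
  · rcases lt_or_ge l (n c.i) with h | h
    · rw [pt_succ h]; simp [wd]
    · rw [pt_top h]; simpa [wd] using by omega

lemma wd_pt_ne {c c' : Y.E} (h : c' ≠ c) (k l : ℕ) : wd n c k (pt n c' l) = c.sd (c'.ed false) := by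
  rcases l with _ | l
  · rw [pt_zero]; rfl
  · rcases lt_or_ge l (n c'.i) with t | t
    · rw [pt_succ t]; exact if_neg h
    · rw [pt_top t]; exact sd_ed_ne h.symm _ _

variable (n) in
/-- the subdivision with `n i` new vertices on the edges of the orbit `i` -/
noncomputable def sub : Forest d where
  V := SV n
  I := Σ i : Y.I, Fin (n i + 1)
  en i b := pt n ⟨1, i.1⟩ (i.2 + b.toNat)
  lev x := Y.lev (rt n x)
  lev_smul g x := by rw [rt_smul, Y.lev_smul]
  lev_en i b := (lev_pt _ _).trans dg_one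
  side i := wd n ⟨1, i.1⟩ i.2
  side_en i b := by
    rw [wd_pt (c := ⟨1, i.1⟩) (Nat.le_of_lt_succ i.2.2)]
    cases b <;> simp
  cross i j g h := by
    rw [pt_smul, pt_smul]
    by_cases e : g • (⟨1, j.1⟩ : Y.E) = ⟨1, i.1⟩
    · have e1 : g = 1 := by simpa using congrArg E.g e
      have e2 : j.1 = i.1 := congrArg E.i e
      rw [e, wd_pt (c := ⟨1, i.1⟩) (Nat.le_of_lt_succ i.2.2),
        wd_pt (c := ⟨1, i.1⟩) (Nat.le_of_lt_succ i.2.2)]
      obtain ⟨i, k⟩ := i
      obtain ⟨j, l⟩ := j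
      obtain rfl : j = i := e2
      have : (k : ℕ) ≠ l := fun t => h (by rw [e1, Fin.ext t])
      simpa using by omega
    · rw [wd_pt_ne e, wd_pt_ne e]
  conn u v h := by
    set R : SV n → SV n → Prop := fun x y => ∃ (g : G) (i : Σ i : Y.I, Fin (n i + 1)) (b : Bool),
      x = g • pt n ⟨1, i.1⟩ (i.2 + b.toNat) ∧ y = g • pt n ⟨1, i.1⟩ (i.2 + (!b).toNat)
    have sy : ∀ x y, Relation.ReflTransGen R x y → Relation.ReflTransGen R y x := fun x y t => by
      induction t with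
      | refl => exact .refl
      | tail _ e ih =>
        obtain ⟨g, i, b, e1, e2⟩ := e
        exact .head ⟨g, i, !b, e2, by simpa using e1⟩ ih
    have ch : ∀ (c : Y.E) l, l ≤ n c.i + 1 →
        Relation.ReflTransGen R (.inl (c.ed false)) (pt n c l) := fun c l hl => by
      induction l with
      | zero => rw [pt_zero]
      | succ l ih =>
        have e : c.g • (⟨1, c.i⟩ : Y.E) = c := E.ext (mul_one _) rfl
        exact (ih (by omega)).tail ⟨c.g, ⟨c.i, l, by omega⟩, false,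
          by rw [pt_smul, e]; rfl, by rw [pt_smul, e]; rfl⟩
    have h1 : ∀ x : SV n, Relation.ReflTransGen R (.inl (rt n x)) x := by
      rintro (v | ⟨⟨c, k⟩, hk⟩)
      · exact .refl
      · have := ch c (k + 1) (Nat.succ_le_succ (Nat.le_of_lt hk))
        rwa [pt_succ hk] at this
    refine (sy _ _ (h1 u)).trans (.trans ?_ (h1 v))
    have t := conn' h
    generalize rt n v = w at t
    induction t with
    | refl => exact .refl
    | tail _ e ih =>
      obtain ⟨c, b, rfl, rfl⟩ := e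
      have := ch c _ le_rfl
      rw [pt_top le_rfl] at this
      cases b
      · exact ih.trans this
      · exact ih.trans (sy _ _ this)

/-- the old edge that carries a new edge -/
def bs (k : (sub n).E) : Y.E := ⟨k.g, k.i.1⟩

lemma g_smul (k : (sub n).E) : k.g • (⟨1, k.i.1⟩ : Y.E) = bs k := E.ext (mul_one _) rfl

lemma ed_eq (k : (sub n).E) (b : Bool) : k.ed b = pt n (bs k) (k.i.2 + b.toNat) := by
  rw [← g_smul, ← pt_smul]; rfl

lemma sd_eq (k : (sub n).E) (x : SV n) : k.sd x = wd n (bs k) k.i.2 x := by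
  rw [← g_smul, ← wd_smul k.g⁻¹, inv_smul_smul]; rfl

lemma btw_pt (c : Y.E) {k l m : ℕ} (h1 : k ≤ l) (h2 : l ≤ m) :
    (sub n).btw (pt n c k) (pt n c l) (pt n c m) := by
  refine ⟨(lev_pt _ _).trans (lev_pt _ _).symm, (lev_pt _ _).trans (lev_pt _ _).symm, fun e => ?_⟩
  simp only [sd_eq]
  by_cases h : c = bs e
  · subst h
    have := Nat.le_of_lt_succ e.i.2.2
    rw [wd_pt (c := bs e) this, wd_pt (c := bs e) this, wd_pt (c := bs e) this]
    simp only [decide_eq_decide]
    omega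
  · simp only [wd_pt_ne h, implies_true]

variable (n) in
/-- the inclusion of the old vertices -/
def io : Hom Y (sub n) 0 where
  toFun := Sum.inl
  map_smul _ _ := rfl
  lev_map _ := (add_zero _).symm

lemma btw_io {a x b : Y.V} (h : Y.btw a x b) : (sub n).btw (io n a) (io n x) (io n b) :=
  ⟨h.1, h.2.1, fun e => by
    have : ∀ v, e.sd (io n v) = (bs e).sd v := fun v => sd_eq e _
    simpa only [this] using h.2.2 _⟩

lemma btw_edge (g : G) (c : Y.E) {l : ℕ} (h : l ≤ n c.i + 1) :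
    (sub n).btw (io n (g • c.ed false)) (g • pt n c l) (io n (g • c.ed true)) := by
  have := btw_pt (n := n) c (Nat.zero_le l) h
  rw [pt_zero, pt_top le_rfl] at this
  exact this.smul g

variable {F : Flow Y} {Mk : Y.Dir → G → Prop}

/-- the marks of every edge, sorted -/
lemma exists_sort (M : Marks F Mk) : ∃ (n : Y.I → ℕ) (δ : Y.E → ℕ → G),
    (∀ (h : G) c k, δ (h • c) k = h * δ c k * h⁻¹) ∧ (∀ c, ∀ k < n c.i, Mk (c, false) (δ c k)) ∧
    (∀ c k l, k < l → l < n c.i → Y.dist (F.σ (c.ed false)) (δ c k • c.ed false) <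
      Y.dist (F.σ (c.ed false)) (δ c l • c.ed false)) ∧
    ∀ c γ, Mk (c, false) γ → ∃ k < n c.i, γ = δ c k := by
  have : ∀ i : Y.I, ∃ (n : ℕ) (γ : ℕ → G), (∀ k < n, γ k ∈ {x | Mk (⟨1, i⟩, false) x}) ∧
      (∀ k l, k < l → l < n →
        Y.dist (F.σ (Dir.src (⟨1, i⟩, false))) (γ k • Dir.src (⟨1, i⟩, false)) <
        Y.dist (F.σ (Dir.src (⟨1, i⟩, false))) (γ l • Dir.src (⟨1, i⟩, false))) ∧
      ∀ x ∈ {x | Mk (⟨1, i⟩, false) x}, ∃ k < n, x = γ k := fun i => by
    refine sort 1 ((finite_tr_mem _ (F.finite_desc 1 _)).subset fun x hx => (M.idesc _ _ hx).1)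
      (fun x => Y.dist (F.σ (Dir.src (⟨1, i⟩, false))) (x • Dir.src (⟨1, i⟩, false)))
      fun x hx y hy e => ?_
    have h1 := (M.idesc _ _ hx).1
    have h2 := (M.idesc _ _ hy).1
    refine tr_left_inj (congrArg Prod.fst (?_ : Dir.tr x (⟨1, i⟩, false) = _))
    have e' := h1.btw_src.eq_of_dist h2.btw_src (by simpa using e)
    exact step_unique ⟨src_mem_rv_H _, h1.2⟩ ⟨e' ▸ src_mem_rv_H _, h2.2⟩ e'
  choose n γ h1 h2 h3 using this
  have e : ∀ c : Y.E, Dir.tr c.g (⟨1, c.i⟩, false) = (c, false) := fun c =>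
    Prod.ext (E.ext (mul_one _) rfl) rfl
  refine ⟨n, fun c k => c.g * γ c.i k * c.g⁻¹, fun h c k => by simp [mul_assoc],
    fun c k hk => e c ▸ M.conj _ _ c.g (h1 _ k hk), fun c k l t1 t2 => ?_, fun c x hx => ?_⟩
  · have := h2 c.i k l t1 t2
    rw [← Forest.dist_smul c.g, ← Forest.dist_smul c.g (F.σ _) (γ c.i l • _)] at this
    simpa [Dir.src, E.ed, mul_smul] using this
  · have := M.conj _ _ c.g⁻¹ (e c ▸ hx)
    rw [tr_inv_tr] at this
    obtain ⟨k, t1, t2⟩ := h3 _ _ this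
    exact ⟨k, t1, by simp only [← t2]; group⟩

end SUB

open SUB in
theorem stSUB : St_SUB := by
  intro G _ d Y F Mk T M
  obtain ⟨n, δ, d1, d2, d3, d4⟩ := exists_sort M
  have cr : ∀ (c : Y.E) k, k < n c.i →
      Y.Cross (F.σ (c.ed false)) (F.σ (c.ed true)) (Dir.tr (δ c k) (c, false)) :=
    fun c k hk => (M.idesc _ _ (d2 c k hk)).1
  let r : Hom (sub n) Y 0 := ⟨rt n, rt_smul, fun _ => (add_zero _).symm⟩
  let f : Hom (sub n) (sub n) 1 :=
    { toFun := fun x => match x with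
        | .inl v => .inl (F.σ v)
        | .inr p => δ p.1.1 p.1.2 • nw p
      map_smul := by
        rintro g (v | p)
        · exact congrArg Sum.inl (F.σ_smul g v)
        · show δ (g • p.1.1) p.1.2 • g • nw p = g • δ p.1.1 p.1.2 • nw p
          rw [d1, mul_smul, mul_smul, inv_smul_smul]
      lev_map := by
        rintro (v | p)
        · exact F.lev_σ v
        · have := (cr _ _ p.2).lev_src
          rw [src_tr] at this
          exact (congrArg Y.lev (rt_smul _ (nw p))).trans (this.symm.trans (F.lev_σ _)) }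
  obtain ⟨b⟩ := F.rev
  let F' : Flow (sub n) := ⟨f, ⟨(io n).comp (b.comp (m := -1) r (by simp)) (by simp)⟩⟩
  have fs : ∀ (c : Y.E) k, k < n c.i → F'.σ (pt n c (k + 1)) = δ c k • pt n c (k + 1) :=
    fun c k hk => by rw [pt_succ hk]; rfl
  have slot : ∀ (c : Y.E) k, k ≤ n c.i → ∃ L U L' U', Y.btw (F.σ (c.ed false)) L U ∧
      (sub n).btw (io n L) (F'.σ (pt n c k)) (io n U) ∧ Y.btw (F.σ (c.ed false)) U L' ∧
      Y.btw (F.σ (c.ed false)) L' U' ∧ (sub n).btw (io n L') (F'.σ (pt n c (k + 1))) (io n U') ∧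
      Y.btw (F.σ (c.ed false)) U' (F.σ (c.ed true)) ∧ IRich U L' := by
    intro c k hk
    have l : Y.lev (F.σ (c.ed false)) = Y.lev (F.σ (c.ed true)) := F.lev_σ_eq (lev_ed_eq _ _ _)
    have q1 : ∀ j < n c.i, Y.btw (F.σ (c.ed false)) (δ c j • c.ed false) (δ c j • c.ed true) :=
      fun j hj => by simpa [Dir.src, Dir.tgt] using (cr c j hj).btw1
    have q2 : ∀ j < n c.i, Y.btw (F.σ (c.ed false)) (δ c j • c.ed true) (F.σ (c.ed true)) :=
      fun j hj => by simpa [Dir.tgt] using (cr c j hj).btw_tgt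
    have q3 : ∀ j < n c.i, (sub n).btw (io n (δ c j • c.ed false)) (F'.σ (pt n c (j + 1)))
        (io n (δ c j • c.ed true)) := fun j hj => fs c j hj ▸ btw_edge _ c (by omega)
    have q0 : (sub n).btw (io n (F.σ (c.ed false))) (F'.σ (pt n c 0)) (io n (F.σ (c.ed false))) := by
      rw [pt_zero]; exact btw_refl _
    have q4 : (sub n).btw (io n (F.σ (c.ed true))) (F'.σ (pt n c (n c.i + 1)))
        (io n (F.σ (c.ed true))) := by
      rw [pt_top le_rfl]; exact btw_refl _
    rcases k with _ | k <;> rcases hk.eq_or_lt with e | e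
    · exact ⟨_, _, _, _, btw_refl _, q0, btw_left l, btw_right l, e ▸ q4, btw_right l,
        irich_dir T (c, false)⟩
    · exact ⟨_, _, _, _, btw_refl _, q0, btw_left (q1 0 e).lev1, q1 0 e, q3 0 e, q2 0 e,
        (M.far_end _ _ (M.rv _ _ (d2 c 0 e))).symm⟩
    · exact ⟨_, _, _, _, q1 k hk, q3 k hk, q2 k hk, btw_right l, e ▸ q4, btw_right l,
        M.far_end _ _ (d2 c k hk)⟩
    · have t := d3 c k (k + 1) (Nat.lt_succ_self _) e
      have t1 := (cr c k hk).dist_src
      have t2 := (q2 _ e).trans_left (q1 _ e)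
      simp only [src_tr, tgt_tr] at t1
      exact ⟨_, _, _, _, q1 k hk, q3 k hk, (q2 k hk).of_dist_le t2 (t1.le.trans t), q1 _ e, q3 _ e,
        q2 _ e, M.far_mid _ _ _ (d2 c k hk) (d2 c _ e) (fun u => by rw [u] at t; exact t.false)
          (((q2 k hk).trans_left (q1 k hk)).of_dist_le t2 t.le)⟩
  refine ⟨sub n, F', io n, bs, ⟨r⟩, fun _ => rfl, fun k v => sd_eq k _,
    fun k => (lev_ed _ _).trans (lev_ed (bs k) _).symm, fun c => ⟨⟨c.g, c.i, 0⟩, rfl⟩,
    fun i => ⟨i.1, fun c hc => ⟨⟨c.g, i⟩, E.ext rfl hc.symm, rfl⟩⟩, ?_, ?_, ?_, ?_⟩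
  · rintro ⟨k, β⟩
    obtain ⟨L, U, L', U', h1, h2, h3, h4, h5, h6, -⟩ := slot (bs k) _ (Nat.le_of_lt_succ k.i.2.2)
    have := key (btw_io h1) h2 (btw_io h3) (btw_io h4) h5 (btw_io h6)
    simp only [Dir.src, Dir.tgt, ed_eq]
    cases β
    exacts [this.1, this.2.1]
  · rintro ⟨k, β⟩
    have hk : (k.i.2 : ℕ) ≤ n (bs k).i := Nat.le_of_lt_succ k.i.2.2
    simp only [Dir.src, ed_eq]
    have nv : ∀ j, j < n (bs k).i → (∃ γ : G, F'.σ (pt n (bs k) (j + 1)) = γ • pt n (bs k) (j + 1)) ∧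
        ∀ e' : (sub n).Dir, pt n (bs e'.1) (e'.1.i.2 + e'.2.toNat) = pt n (bs k) (j + 1) →
          bs e'.1 = bs k := by
      refine fun j hj => ⟨⟨_, fs _ j hj⟩, fun e' => ?_⟩
      rw [pt_succ hj, pt]
      split_ifs
      · exact nofun
      · exact fun t => congrArg (fun p => p.1.1) (Sum.inr.inj t)
      · exact nofun
    cases β
    · rcases e : (k.i.2 : ℕ) with _ | j
      · exact .inl (pt_zero _)
      · exact .inr (nv j (by omega))
    · rcases hk.eq_or_lt with e | e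
      · exact .inl (pt_top e.ge)
      · exact .inr (nv _ e)
  · rintro ⟨k, β⟩
    obtain ⟨L, U, L', U', h1, h2, h3, h4, h5, h6, h7⟩ := slot (bs k) _ (Nat.le_of_lt_succ k.i.2.2)
    have := key (btw_io h1) h2 (btw_io h3) (btw_io h4) h5 (btw_io h6)
    simp only [Dir.src, Dir.tgt, ed_eq]
    cases β
    exacts [⟨U, L', h7, this.2.2.1⟩, ⟨L', U, h7.symm, this.2.2.2⟩]
  · rintro ⟨c, β⟩ γ h
    have h' : Mk (c, false) γ := by
      cases β
      exacts [h, M.rv _ _ h]
    obtain ⟨k, hk, rfl⟩ := d4 c γ h'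
    have := btw_edge (n := n) 1 c (l := k + 1) (by omega)
    simp only [one_smul] at this
    refine ⟨pt n c (k + 1), ?_, by rw [pt_succ hk]; exact nofun, fs c k hk⟩
    cases β
    exacts [this, this.symm]

end Pool.Agent.Lib.FBC.X5
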