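import Pool.Agent.Lib.FBC.X5.FX
import Pool.Agent.Lib.FBC.X5.MK
import Pool.Agent.Lib.FBC.X5.SUB
import Pool.Agent.Lib.FBC.X5.IMM

/-!
Existence of nice train tracks.
-/

namespace Pool.Agent.Lib.FBC.X5

theorem stNF : St_NF := stNF_of stFX stFIN stMK stSUB stIMM

end Pool.Agent.Lib.FBC.X5
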