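import Pool.Agent.Lib.FBC.X5.Blue

set_option autoImplicit false
set_option linter.unusedVariables false

/-!
Tripods with legal arms: persistence of cancellation, legality along subsequences, richness.
-/

namespace Pool.Agent.Lib.FBC.X5

open Forest T2

variable {G : Type} [Group G] {d : Dg G} {Y : Forest d} {s : Flow Y} {a b u w x y z m : Y.V}

lemma it_succ (n : ℕ) (a : Y.V) : s.σ^[n + 1] a = s.σ (s.σ^[n] a) :=
  Function.iterate_succ_apply' _ _ _

lemma it_add (n k : ℕ) (a : Y.V) : s.σ^[n + k] a = s.σ^[n] (s.σ^[k] a) :=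
  Function.iterate_add_apply _ _ _ _

/-- ordered triples on a legal geodesic stay ordered -/
lemma lp_it3 (h : s.LegalP a b) (hx : Y.btw a x b) (hz : Y.btw a z b) (e : Y.btw x y z) (n : ℕ) :
    Y.btw (s.σ^[n] x) (s.σ^[n] y) (s.σ^[n] z) := h.2 x y z hx (hx.convex hz e) hz e n

lemma lp_it1 (h : s.LegalP a b) (hx : Y.btw a x b) (n : ℕ) :
    Y.btw (s.σ^[n] a) (s.σ^[n] x) (s.σ^[n] b) := lp_lg h hx n

lemma lp_it2 (h : s.LegalP a b) (hz : Y.btw a z b) (e : Y.btw a y z) (n : ℕ) :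
    Y.btw (s.σ^[n] a) (s.σ^[n] y) (s.σ^[n] z) := lp_it3 h (btw_left h.1) hz e n

/-- a cancelled point of an arm stays cancelled -/
lemma per_one (T : s.TT) (hx : s.LegalP y x) (hz : s.LegalP y z) (hu : Y.btw y u x)
    (h : ¬ Y.btw x u z) : ¬ Y.btw (s.σ x) (s.σ u) (s.σ z) := fun h' => by
  obtain ⟨m, m1, m2, m3⟩ := exists_med hx.1.symm (hx.1.symm.trans hz.1)
  rcases hu.total m1.symm with e | e
  · have q1 : Y.btw (s.σ u) (s.σ m) (s.σ x) := lp_it3 hx hu (btw_right hx.1)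
      (m1.symm.trans_left' e) 1
    have q2 : Y.btw (s.σ u) (s.σ m) (s.σ z) := lp_it3 hz (m2.trans_left e) (btw_right hz.1)
      (m2.trans_left' e) 1
    have q3 : s.σ u = s.σ m := q2.antisymm' (h'.trans_left' q1.symm)
    refine exp_ne T (lp_sub hx hu m1.symm) (fun e' => h (e' ▸ m3)) 1 q3
  · exact h (m3.trans_left (hu.trans_left' e).symm)

lemma per_le (T : s.TT) (hx : s.LegalP y x) (hz : s.LegalP y z) (hu : Y.btw y u x) {t t' : ℕ}
    (l : t ≤ t') (h : ¬ Y.btw (s.σ^[t] x) (s.σ^[t] u) (s.σ^[t] z)) :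
    ¬ Y.btw (s.σ^[t'] x) (s.σ^[t'] u) (s.σ^[t'] z) := by
  induction l with
  | refl => exact h
  | step _ ih =>
    simp only [Nat.succ_eq_add_one, it_succ]
    exact per_one T (lp_it T hx _) (lp_it T hz _) (lp_it1 hx hu _) ih

/-- a point of an arm that is kept at the times `j * n` is kept for ever -/
lemma lg_of_mul (T : s.TT) (hx : s.LegalP y x) (hz : s.LegalP y z) (hu : Y.btw y u x) {j : ℕ}
    (hj : 0 < j) (h : ∀ n, Y.btw (s.σ^[j * n] x) (s.σ^[j * n] u) (s.σ^[j * n] z)) :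
    s.Legal x u z := fun n => by_contra fun e =>
  per_le T hx hz hu (Nat.le_mul_of_pos_left n hj) e (h n)

/-- legality can be tested at the times `j * n` -/
lemma lp_of_mul (T : s.TT) {j : ℕ} (hj : 0 < j) (l : Y.lev a = Y.lev b)
    (h : ∀ x, Y.btw a x b → ∀ y, Y.btw x y b → ∀ n,
      Y.btw (s.σ^[j * n] x) (s.σ^[j * n] y) (s.σ^[j * n] b)) : s.LegalP a b := by
  refine dir_ind (P := fun x => Y.btw a x b → s.LegalP x b) (fun _ => lp_refl b)
    (fun e he ih hb => ?_) l (btw_left l)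
  have h1 := ih (hb.trans_right he.btw_tgt)
  have h2 : s.LegalP e.src e.tgt := lp_adj (adj_dir e)
  exact lp_cat h2 h1 (lg_of_mul T (lp_symm h2) h1 (btw_left (lev_src_tgt e).symm) hj
    (h _ hb _ he.btw_tgt))

/-- legality for a power of the flow is legality for the flow -/
lemma lp_of_pow {H : Type} [Group H] {e : Dg H} {j : H →* G} {k : ℕ} {h : GPow d k j e}
    {hk : 0 < k} (T : s.TT) {a b : (Y.pow h).V} (q : (s.pow h hk).LegalP a b) :
    s.LegalP a.1 b.1 := by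
  refine lp_of_mul T hk (pow_lev_iff.1 q.1) fun x hx y hy => ?_
  have hx' : (Y.pow h).btw a (mkPow a x hx.lev1) b := btw_pow.2 hx
  have l : Y.lev a.1 = Y.lev y := hx.lev1.trans hy.lev1
  have hy' : (Y.pow h).btw (mkPow a x hx.lev1) (mkPow a y l) b := btw_pow.2 hy
  exact (Flow.legal_pow_iff s).1 (q.2 _ _ _ hx' (hx'.trans_right hy') (btw_right q.1) hy')

lemma Alive.symm {t : ℕ} (h : Alive s t x y z) : Alive s t z y x :=
  ⟨h.2.1, h.1, fun e => h.2.2 (lp_symm e)⟩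

lemma alive_add {t k : ℕ} :
    Alive s (t + k) x y z ↔ Alive s t (s.σ^[k] x) (s.σ^[k] y) (s.σ^[k] z) := by
  simp only [Alive, it_add]

lemma Alive.smul {t : ℕ} (h : Alive s t x y z) (g : G) : Alive s t (g • x) (g • y) (g • z) := by
  simp only [Alive, it_smul, btw_smul]
  exact ⟨h.1, h.2.1, fun e => h.2.2 (by simpa using lp_smul g⁻¹ e)⟩

/-- a tripod that is alive was alive before -/
lemma Alive.le (T : s.TT) (hx : s.LegalP y x) (hz : s.LegalP y z) {t t' : ℕ} (l : t ≤ t')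
    (h : Alive s t' x y z) : Alive s t x y z := by
  obtain ⟨k, rfl⟩ := Nat.exists_eq_add_of_le' l
  simp only [Alive, it_add] at h
  exact ⟨fun e => h.1 (lp_it1 (lp_it T hz t) e k), fun e => h.2.1 (lp_it1 (lp_it T hx t) e k),
    fun e => h.2.2 (lp_it T e k)⟩

/-- longer arms -/
lemma Alive.ext (hx : s.LegalP y a) (hz : s.LegalP y b) (h1 : Y.btw y x a) (h2 : Y.btw y z b)
    {t : ℕ} (h : Alive s t x y z) : Alive s t a y b := by
  have q1 := lp_it1 hx h1 t
  have q2 := lp_it1 hz h2 t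
  have n1 : ¬ Y.btw (s.σ^[t] y) (s.σ^[t] x) (s.σ^[t] b) := fun e => (e.total q2).elim h.1 h.2.1
  have n2 : ¬ Y.btw (s.σ^[t] y) (s.σ^[t] z) (s.σ^[t] a) := fun e => (e.total q1).elim h.2.1 h.1
  exact ⟨fun e => n1 (e.trans_left q1), fun e => n2 (e.trans_left q2), fun e => h.2.2 (lp_sub e
    ((q1.cover q2.lev3).resolve_left n1).symm ((q2.cover q1.lev3).resolve_left n2))⟩

/-- the centre can be moved to the median -/
lemma Alive.med (hx : s.LegalP y x) (hz : s.LegalP y z) (h1 : Y.btw y m x) (h2 : Y.btw y m z)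
    {t : ℕ} (h : Alive s t x y z) : Alive s t x m z :=
  ⟨fun e => h.1 ((lp_it1 hz h2 t).trans_right e), fun e => h.2.1 ((lp_it1 hx h1 t).trans_right e),
    h.2.2⟩

lemma Alive.ne (hz : s.LegalP y z) {t : ℕ} (h : Alive s t x y z) : y ≠ x := fun e =>
  h.1 (e ▸ btw_left (lev_it t hz.1))

lemma ICross.symm {e : Y.Dir} (h : ICross u w e) : ICross w u e.rv :=
  ⟨h.1.symm, h.2.2, tgt_rv e ▸ h.2.1⟩

lemma ICross.ext {e : Y.Dir} (h : ICross u w e) (h1 : Y.btw a u w) (h2 : Y.btw a w b) :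
    ICross a b e := by
  refine ⟨h.1.extend h1 h2, fun q => h.2.1 ?_, fun q => h.2.2 ?_⟩
  · have := h1.trans_right' h.1.btw_src
    rw [q] at this ⊢
    exact this.eq_of_self.symm
  · have := (h2.trans_left' h1).trans_left' h.1.btw_tgt
    rw [q] at this ⊢
    exact this.eq_of_self.symm

lemma IRich.symm (h : IRich u w) : IRich w u := fun i =>
  let ⟨a, a', h1, h2, h3, h4, h5⟩ := h i
  ⟨a.rv, a'.rv, h1, h2, h3, h4.symm, h5.symm⟩

lemma IRich.ext (h : IRich u w) (h1 : Y.btw a u w) (h2 : Y.btw a w b) : IRich a b := fun i =>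
  let ⟨e, e', q1, q2, q3, q4, q5⟩ := h i
  ⟨e, e', q1, q2, q3, q4.ext h1 h2, q5.ext h1 h2⟩

lemma irich_dir (T : s.TT) (e : Y.Dir) : IRich (s.σ e.src) (s.σ e.tgt) := T.prim e

/-- images of nondegenerate legal geodesics are rich -/
lemma irich_it (T : s.TT) (h : s.LegalP a b) (hne : a ≠ b) {k : ℕ} (hk : 0 < k) :
    IRich (s.σ^[k] a) (s.σ^[k] b) := by
  obtain ⟨k, rfl⟩ := Nat.exists_eq_add_of_le' hk
  have q := lp_it T h k
  obtain ⟨e, e1, e2⟩ := exists_step q.1 (exp_ne T h hne k)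
  rw [it_succ, it_succ]
  have := lp_bt q e2.btw_tgt
  rw [← e1] at this ⊢
  exact (irich_dir T e).ext (btw_left (lev_σ (lev_src_tgt e))) this

end Pool.Agent.Lib.FBC.X5
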