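import Pool.Agent.Lib.FBC.X1.Pow
import Pool.Agent.Lib.FBC.T2.Leg

set_option autoImplicit false
set_option linter.unusedVariables false

/-!
Nice train tracks: definitions, the statements of the blocks, and the assembly.
-/

namespace Pool.Agent.Lib.FBC.X5

open Forest

variable {G : Type} [Group G] {d : Dg G} {Y : Forest d}

/-- the tripod with centre `y` is not degenerate at time `t` -/
def Alive (s : Flow Y) (t : ℕ) (x y z : Y.V) : Prop :=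
  ¬ Y.btw (s.σ^[t] y) (s.σ^[t] x) (s.σ^[t] z) ∧ ¬ Y.btw (s.σ^[t] y) (s.σ^[t] z) (s.σ^[t] x) ∧
    ¬ s.LegalP (s.σ^[t] x) (s.σ^[t] z)

/-- a long-lived illegal turn is enclosed, after `k` steps, by two darts that carry fixed points
of the `k`-th iterate with a common multiplier -/
def FXk (s : Flow Y) (k : ℕ) : Prop :=
  ∃ M C : ℕ, ∀ x y z, s.LegalP y x → s.LegalP y z → Alive s M x y z →
    ∃ (m : Y.V) (e e' : Y.Dir) (γ : G), Y.Med (s.σ^[k] x) (s.σ^[k] y) (s.σ^[k] z) m ∧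
      Y.Cross m (s.σ^[k] x) e ∧ Y.Cross m (s.σ^[k] z) e' ∧ Y.dist e.tgt e'.tgt ≤ C ∧
      s.Desc k e (e.tr γ) ∧ s.Desc k e' (e'.tr γ) ∧
      γ • e.src ≠ s.σ^[k] e.src ∧ γ • e'.src ≠ s.σ^[k] e'.src

/-- vertices are periodic of period `k` after `k` steps -/
def PERk (s : Flow Y) (k : ℕ) : Prop := ∀ a, ∃ γ : G, s.σ^[k] (s.σ^[k] a) = γ • s.σ^[k] a

/-- the dart `a` lies in the interior of the geodesic from `u` to `w` -/
def ICross (u w : Y.V) (a : Y.Dir) : Prop := Y.Cross u w a ∧ a.src ≠ u ∧ a.tgt ≠ w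

/-- the interior of the geodesic from `u` to `w` contains two edges of every orbit -/
def IRich (u w : Y.V) : Prop :=
  ∀ i, ∃ a a' : Y.Dir, a.1 ≠ a'.1 ∧ a.1.i = i ∧ a'.1.i = i ∧ ICross u w a ∧ ICross u w a'

/-- an invariant family of interior fixed points whose images are far apart -/
structure Marks (F : Flow Y) (Mk : Y.Dir → G → Prop) : Prop where
  idesc : ∀ c δ, Mk c δ → F.IDesc 1 c (c.tr δ)
  rv : ∀ c δ, Mk c δ → Mk c.rv δ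
  conj : ∀ c δ (g : G), Mk c δ → Mk (c.tr g) (g * δ * g⁻¹)
  far_end : ∀ c δ, Mk c δ → IRich (δ • c.tgt) (F.σ c.tgt)
  far_mid : ∀ c δ δ', Mk c δ → Mk c δ' → δ ≠ δ' → Y.btw (F.σ c.src) (δ • c.src) (δ' • c.src) →
    IRich (δ • c.tgt) (δ' • c.src)

/-- long-lived illegal turns are enclosed by fixed vertices or marks -/
def FXm (F : Flow Y) (Mk : Y.Dir → G → Prop) : Prop :=
  ∃ M C : ℕ, ∀ x y z, F.LegalP y x → F.LegalP y z → Alive F M x y z →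
    ∃ (m : Y.V) (e e' : Y.Dir) (δ : G), Y.Med (F.σ x) (F.σ y) (F.σ z) m ∧
      Y.Cross m (F.σ x) e ∧ Y.Cross m (F.σ z) e' ∧ Y.dist e.tgt e'.tgt ≤ C ∧
      (F.σ e.tgt = δ • e.tgt ∨ Mk e δ) ∧ (F.σ e'.tgt = δ • e'.tgt ∨ Mk e' δ)

/-- the dart of the old forest that carries a dart of the subdivision -/
def bd {Y' : Forest d} (bs : Y'.E → Y.E) (e : Y'.Dir) : Y.Dir := (bs e.1, e.2)

/-- `Y'` is the subdivision of `Y` at the marks and `F'` is the induced flow -/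
structure SubD (F : Flow Y) (Mk : Y.Dir → G → Prop) {Y' : Forest d} (F' : Flow Y')
    (ι : Hom Y Y' 0) (bs : Y'.E → Y.E) : Prop where
  comm : ∀ v, F'.σ (ι v) = ι (F.σ v)
  sd : ∀ (k : Y'.E) v, k.sd (ι v) = (bs k).sd v
  lev : ∀ k : Y'.E, Y'.lev (k.ed false) = Y.lev ((bs k).ed false)
  surj : ∀ c : Y.E, ∃ k, bs k = c
  orb : ∀ i' : Y'.I, ∃ i : Y.I, ∀ c : Y.E, c.i = i → ∃ k, bs k = c ∧ k.i = i'
  loc : ∀ e : Y'.Dir, Y'.btw (ι (F.σ (bd bs e).src)) (F'.σ e.src) (F'.σ e.tgt) ∧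
    Y'.btw (ι (F.σ (bd bs e).src)) (F'.σ e.tgt) (ι (F.σ (bd bs e).tgt))
  new : ∀ e : Y'.Dir, e.src = ι (bd bs e).src ∨ ((∃ δ : G, F'.σ e.src = δ • e.src) ∧
    ∀ e' : Y'.Dir, e'.src = e.src → bs e'.1 = bs e.1)
  rich : ∀ e : Y'.Dir, ∃ u w, IRich u w ∧ Y'.btw (F'.σ e.src) (ι u) (ι w) ∧
    Y'.btw (F'.σ e.src) (ι w) (F'.σ e.tgt)
  fix : ∀ c δ, Mk c δ → ∃ p, Y'.btw (ι c.src) p (ι c.tgt) ∧ p ≠ ι c.src ∧ F'.σ p = δ • p

/-- the clause `per` of `Flow.NF` -/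
def Per1 (s : Flow Y) : Prop := ∀ a, ∃ γ : G, s.σ (s.σ a) = γ • s.σ a

/-- the clause `imm` of `Flow.NF` -/
def Imm (s : Flow Y) : Prop :=
  ∃ M : ℕ, ∀ x y z, s.LegalP x y → s.LegalP y z →
    ¬ Y.btw (s.σ^[2 * M] y) (s.σ^[2 * M] x) (s.σ^[2 * M] z) →
    ¬ Y.btw (s.σ^[2 * M] x) (s.σ^[2 * M] z) (s.σ^[2 * M] y) →
    ¬ s.LegalP (s.σ^[2 * M] x) (s.σ^[2 * M] z) →
    ∃ p m q, s.INP p m q ∧ Y.btw (s.σ^[M] x) p q ∧ Y.btw p q (s.σ^[M] z)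

def St_FX : Prop := ∀ (G : Type) [Group G] (d : Dg G) (Y : Forest d) (s : Flow Y),
  Function.Surjective d → s.TT → ∃ k0, 0 < k0 ∧ ∀ k, 0 < k → k0 ∣ k → FXk s k ∧ PERk s k

def St_FIN : Prop := ∀ (G : Type) [Group G] (d : Dg G) (Y : Forest d) (s : Flow Y),
  Function.Surjective d → s.TT →
  ∃ S : Finset (Y.V × Y.V), ∀ p y q, s.INP p y q → ∃ g : G, (g • p, g • q) ∈ S

def St_MK : Prop := ∀ (G H : Type) [Group G] [Group H] (d : Dg G) (e : Dg H) (j : H →* G)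
  (Y : Forest d) (s : Flow Y) (k : ℕ) (h : GPow d (3 * k) j e) (hk : 0 < 3 * k),
  s.TT → FXk s k → PERk s k →
  (s.pow h hk).TT ∧ Per1 (s.pow h hk) ∧ ∃ Mk, Marks (s.pow h hk) Mk ∧ FXm (s.pow h hk) Mk

def St_SUB : Prop := ∀ (G : Type) [Group G] (d : Dg G) (Y : Forest d) (F : Flow Y)
  (Mk : Y.Dir → G → Prop), F.TT → Marks F Mk →
  ∃ (Y' : Forest d) (F' : Flow Y') (ι : Hom Y Y' 0) (bs : Y'.E → Y.E),
    Nonempty (Hom Y' Y 0) ∧ SubD F Mk F' ι bs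

def St_IMM : Prop := ∀ (G : Type) [Group G] (d : Dg G) (Y Y' : Forest d) (F : Flow Y)
  (Mk : Y.Dir → G → Prop) (F' : Flow Y') (ι : Hom Y Y' 0) (bs : Y'.E → Y.E),
  Function.Surjective d → F.TT → Per1 F → FXm F Mk → SubD F Mk F' ι bs →
  F'.TT ∧ Per1 F' ∧ Imm F'

lemma one_side (h2 : St_FIN) (h3 : St_MK) (h4 : St_SUB) (h5 : St_IMM) {H : Type} [Group H]
    {e : Dg H} {j : H →* G} {s : Flow Y} {k : ℕ} (h : GPow d (3 * k) j e) (hk : 0 < 3 * k)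
    (hd : Function.Surjective d) (T : s.TT) (q : FXk s k ∧ PERk s k) :
    ∃ (Y' : Forest e) (F' : Flow Y'), Nonempty (Hom (Y.pow h) Y' 0) ∧
      Nonempty (Hom Y' (Y.pow h) 0) ∧ F'.NF := by
  obtain ⟨a1, a2, Mk, a3, a4⟩ := h3 _ _ _ _ _ _ s k h hk T q.1 q.2
  obtain ⟨Y', F', ι, bs, b1, b2⟩ := h4 _ _ _ _ Mk a1 a3
  have he := h.surj hk hd
  obtain ⟨c1, c2, c3⟩ := h5 _ _ _ _ _ Mk F' ι bs he a1 a2 a4 b2
  exact ⟨Y', F', ⟨ι⟩, b1, c1, c2, c3, h2 _ _ _ _ he c1⟩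

theorem stNF_of (h1 : St_FX) (h2 : St_FIN) (h3 : St_MK) (h4 : St_SUB) (h5 : St_IMM) :
    St_NF := by
  intro G _ d d' hF X T T' hM
  have hF' := hF.symm X
  obtain ⟨k1, p1, q1⟩ := h1 _ _ _ X.s hF.surj T
  obtain ⟨k2, p2, q2⟩ := h1 _ _ _ X.t hF'.surj T'
  have hk : 0 < k1 * k2 := Nat.mul_pos p1 p2
  have hk3 : 0 < 3 * (k1 * k2) := by omega
  obtain ⟨S, c, hP⟩ := exists_pow d hk3
  have h := hP.gpow
  obtain ⟨P', s', ⟨i1⟩, ⟨r1⟩, n1⟩ :=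
    one_side h2 h3 h4 h5 h hk3 hF.surj T (q1 _ hk (dvd_mul_right _ _))
  obtain ⟨M', t', ⟨i2⟩, ⟨r2⟩, n2⟩ :=
    one_side h2 h3 h4 h5 (h.neg X.neg) hk3 hF'.surj T' (q2 _ hk (dvd_mul_left _ _))
  let Z := X.pow h hk3
  refine ⟨_, S, c, hP, ⟨fun _ => rfl, P', M', s', t',
    (EMap.ofHom i1).comp (Z.h.comp (EMap.ofHom r2)),
    (EMap.ofHom i2).comp (Z.h'.comp (EMap.ofHom r1)), fun a => ?_, fun a => ?_⟩, n1, n2, ?_⟩
  · change P'.lev (i1 (Z.h.f (r2 a))) = _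
    rw [i1.lev_map, add_zero]
    exact (Z.lev_h _).trans (congrArg Neg.neg ((r2.lev_map a).trans (add_zero _)))
  · change M'.lev (i2 (Z.h'.f (r1 a))) = _
    rw [i2.lev_map, add_zero]
    exact (Z.lev_h' _).trans (congrArg Neg.neg ((r1.lev_map a).trans (add_zero _)))
  · have : P'.Ell = Z.P.Ell := Set.Subset.antisymm r1.ell_subset i1.ell_subset
    change MAX c P'.Ell
    rw [this]
    exact X.max_pow hM h hk3

end Pool.Agent.Lib.FBC.X5
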