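import Pool.Agent.Lib.FBC.X5.Tight

set_option autoImplicit false
set_option linter.unusedVariables false

/-!
Long-lived illegal turns contain immortal tight tripods, and these are eventually periodic.
-/

namespace Pool.Agent.Lib.FBC.X5

open Forest T2

variable {G : Type} [Group G]

lemma iter_idem {α : Type} [Finite α] (n : α → α) :
    ∃ k0, 0 < k0 ∧ ∀ k, 0 < k → k0 ∣ k → ∀ a, n^[k] (n^[k] a) = n^[k] a := by
  obtain ⟨i, j, hne, e⟩ := Finite.exists_ne_map_eq_of_infinite fun i : ℕ => n^[i]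
  wlog l : i < j generalizing i j
  · exact this j i hne.symm e.symm (by omega)
  obtain ⟨p, rfl⟩ := Nat.exists_eq_add_of_lt l
  have h1 : ∀ c a, n^[c * (p + 1)] (n^[i] a) = n^[i] a := fun c a =>
    Function.IsPeriodicPt.const_mul (show n^[p + 1] (n^[i] a) = n^[i] a by
      rw [← Function.iterate_add_apply, congrFun e a]; congr 1; omega) c
  refine ⟨(i + 1) * (p + 1), by positivity, ?_⟩
  rintro _ hk ⟨c, rfl⟩ a
  have hc : 0 < c := Nat.pos_of_mul_pos_left hk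
  obtain ⟨r, hr⟩ : ∃ r, (i + 1) * (p + 1) * c = r + i := ⟨(i + 1) * (p + 1) * c - i, by
    have : (i + 1) * 1 * 1 ≤ (i + 1) * (p + 1) * c := by gcongr <;> omega
    omega⟩
  have : n^[(i + 1) * (p + 1) * c] a = n^[i] (n^[r] a) := by
    rw [← Function.iterate_add_apply, hr, add_comm]
  rw [this, mul_right_comm, h1]

/-- eventual periodicity for a graded equivariant relation on finitely many orbits -/
lemma per_rel {X : Type} [MulAction G X] {S : Set X} (R : ℕ → X → X → Prop) (hF : FO G S)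
    (hS : ∀ (g : G), ∀ x ∈ S, g • x ∈ S) (h0 : ∀ x ∈ S, R 0 x x) (h1 : ∀ x ∈ S, ∃ y ∈ S, R 1 x y)
    (hs : ∀ i, ∀ x ∈ S, ∀ y z, R i x y → R 1 y z → R (i + 1) x z)
    (hg : ∀ (g : G) i x y, R i x y → R i (g • x) (g • y)) :
    ∃ k0, 0 < k0 ∧ ∀ k, 0 < k → k0 ∣ k → ∀ x ∈ S, ∃ y ∈ S, ∃ γ : G, R k x y ∧ R k y (γ • y) := by
  obtain ⟨F, F1, F2⟩ := hF
  have : Finite ↥(F ∩ S) := (F1.inter_of_left S).to_subtype
  have rep : ∀ x ∈ S, ∃ (g : G) (a : ↥(F ∩ S)), x = g • a.1 := fun x hx =>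
    let ⟨g, hg⟩ := F2 x hx; ⟨g⁻¹, ⟨g • x, hg, hS g x hx⟩, (inv_smul_smul _ _).symm⟩
  have nx : ∀ a : ↥(F ∩ S), ∃ (b : ↥(F ∩ S)) (g : G), R 1 a.1 (g • b.1) := fun a => by
    obtain ⟨y, hy, e⟩ := h1 _ a.2.2
    obtain ⟨g, b, rfl⟩ := rep y hy
    exact ⟨b, g, e⟩
  choose n hn using nx
  have key : ∀ i (a : ↥(F ∩ S)), ∃ g : G, R i a.1 (g • (n^[i] a).1) := fun i a => by
    induction i with
    | zero => exact ⟨1, by simpa using h0 _ a.2.2⟩
    | succ i ih =>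
      obtain ⟨g, e⟩ := ih
      obtain ⟨g', e'⟩ := hn (n^[i] a)
      refine ⟨g * g', hs i _ a.2.2 _ _ e ?_⟩
      rw [Function.iterate_succ_apply', mul_smul]
      exact hg g _ _ _ e'
  obtain ⟨k0, p, q⟩ := iter_idem n
  refine ⟨k0, p, fun k hk hd x hx => ?_⟩
  obtain ⟨g0, a, rfl⟩ := rep x hx
  obtain ⟨g, e⟩ := key k a
  obtain ⟨g', e'⟩ := key k (n^[k] a)
  rw [q k hk hd] at e'
  refine ⟨g0 • g • (n^[k] a).1, hS _ _ (hS _ _ (n^[k] a).2.2), g0 * g * g' * (g0 * g)⁻¹,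
    hg g0 _ _ _ e, ?_⟩
  simpa [mul_smul] using hg g0 _ _ _ (hg g _ _ _ e')

variable {d : Dg G} {Y : Forest d} {s : Flow Y} {a b u v w x y z m x' y' z' : Y.V}

/-- points of an arm that are far from the centre are never cancelled -/
lemma never (hd : Function.Surjective d) (T : s.TT) : ∃ C, ∀ u y z, s.LegalP y u → s.LegalP y z →
    Y.btw u y z → ∀ t, Y.btw (s.σ^[t] y) (s.σ^[t] u) (s.σ^[t] z) → Y.dist y u ≤ C := by
  obtain ⟨C, hC⟩ := s.exists_bcc hd 1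
  refine ⟨C, fun u y z hu hz hb t ht => by_contra fun hlt => ?_⟩
  have : ∀ t, ∃ m, Y.Med (s.σ^[t] u) (s.σ^[t] y) (s.σ^[t] z) m ∧ C < Y.dist m (s.σ^[t] u) := by
    intro t
    induction t with
    | zero => exact ⟨y, ⟨btw_right hb.lev1, btw_left hb.lev2, hb⟩, not_le.1 hlt⟩
    | succ t ih =>
      obtain ⟨m, ⟨m1, m2, m3⟩, hm⟩ := ih
      simp only [it_succ]
      have lu := lp_it T hu t
      obtain ⟨m', h'⟩ := exists_med (lev_σ (s := s) m3.lev3) (lev_σ m3.lev1)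
      have c1 : Y.dist (s.σ m) m' ≤ C := hC _ _ _ m' m3 h'
      have c2 := exp_σ T (lp_right lu m1.symm)
      have c3 := h'.2.2.symm.dist_add
      refine ⟨m', ⟨(lp_bt lu m1.symm).symm.trans_left h'.2.2,
        (lp_bt (lp_it T hz t) m2).trans_right h'.2.1.symm, h'.1⟩, by omega⟩
  obtain ⟨m, hm, h⟩ := this t
  rw [← hm.2.2.antisymm' (ht.trans_left' hm.1.symm), Forest.dist_self] at h
  omega

lemma exists_switch {Q : Y.V → Prop} (l : Y.lev a = Y.lev b) (hb : Q b) (ha : ¬ Q a) :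
    ∃ e : Y.Dir, Y.Cross a b e ∧ ¬ Q e.src ∧ Q e.tgt := by
  refine dir_ind (P := fun a => ¬ Q a → ∃ e : Y.Dir, Y.Cross a b e ∧ ¬ Q e.src ∧ Q e.tgt)
    (fun h => (h hb).elim) (fun e he ih h => ?_) l ha
  by_cases q : Q e.tgt
  · exact ⟨e, he, h, q⟩
  · exact (ih q).imp fun e' h' => ⟨h'.1.extend_left he.btw_tgt, h'.2⟩

/-- legality spreads from a segment around the median to the whole geodesic -/
lemma lp_spread (T : s.TT) (hx : s.LegalP y x) (hz : s.LegalP y z) (h1 : Y.btw y x' x)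
    (h2 : Y.btw y z' z) (n1 : ¬ Y.btw y x' z) (n2 : ¬ Y.btw y z' x) (h : s.LegalP x' z') :
    s.LegalP x z := by
  obtain ⟨m, m1, m2, m3⟩ := exists_med hx.1.symm (hx.1.symm.trans hz.1)
  have a1 := (h1.total m1.symm).resolve_left fun e => n1 (m2.trans_left e)
  have a2 := (h2.total m2).resolve_left fun e => n2 (m1.symm.trans_left e)
  have b1 := (h1.trans_left' a1).symm
  have b2 := h2.trans_left' a2
  have c := m3.trans_right' b2
  exact lp_over T (lp_over T (lp_symm (lp_right hx m1.symm)) h b1 (c.trans_left' b1)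
    fun e => n1 (e ▸ m2)) (lp_right hz m2) c b2 fun e => n2 (e ▸ m1.symm)

/-- sub-tripods -/
def Sub (p q : Y.V × Y.V × Y.V) : Prop :=
  (Y.btw p.2.1 q.2.1 q.1 ∧ Y.btw p.2.1 q.1 p.1) ∧ Y.btw p.2.1 q.2.1 q.2.2 ∧ Y.btw p.2.1 q.2.2 p.2.2

/-- the image of a tripod -/
def im (s : Flow Y) (n : ℕ) (p : Y.V × Y.V × Y.V) : Y.V × Y.V × Y.V :=
  (s.σ^[n] p.1, s.σ^[n] p.2.1, s.σ^[n] p.2.2)

variable {p q r : Y.V × Y.V × Y.V}

lemma Sub.trans (h : Sub p q) (h' : Sub q r) : Sub p r :=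
  have k : ∀ {y y' y'' x x' x'' : Y.V}, Y.btw y y' x' ∧ Y.btw y x' x →
      Y.btw y' y'' x'' ∧ Y.btw y' x'' x' → Y.btw y y'' x'' ∧ Y.btw y x'' x := fun a b =>
    ⟨(a.1.trans_right' b.2).trans_right b.1, a.2.trans_left (a.1.trans_right b.2)⟩
  ⟨k h.1 h'.1, k h.2 h'.2⟩

lemma Sub.smul (h : Sub p q) (g : G) : Sub (g • p) (g • q) :=
  ⟨⟨h.1.1.smul g, h.1.2.smul g⟩, h.2.1.smul g, h.2.2.smul g⟩

lemma Sub.im (hx : s.LegalP p.2.1 p.1) (hz : s.LegalP p.2.1 p.2.2) (h : Sub p q) (n : ℕ) :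
    Sub (im s n p) (im s n q) :=
  ⟨⟨lp_it2 hx h.1.2 h.1.1 n, lp_it1 hx h.1.2 n⟩, lp_it2 hz h.2.2 h.2.1 n, lp_it1 hz h.2.2 n⟩

lemma im_smul (n : ℕ) (g : G) (p : Y.V × Y.V × Y.V) : im s n (g • p) = g • im s n p := by
  simp [im]

lemma im_add (n k : ℕ) (p : Y.V × Y.V × Y.V) : im s (n + k) p = im s n (im s k p) := by
  simp only [im, it_add]

/-- a tripod that is alive at time `t` contains a small tight tripod that is alive at time `t` -/
lemma exists_tight (hd : Function.Surjective d) (T : s.TT) : ∃ C, ∀ t x y z, s.LegalP y x →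
    s.LegalP y z → Alive s t x y z → ∃ x' m z', Sub (x, y, z) (x', m, z') ∧ Tight s x' m z' ∧
      Y.dist x' z' < C ∧ Alive s t x' m z' := by
  obtain ⟨C, hC⟩ := never hd T
  refine ⟨2 * C + 3, fun t x y z hx hz h => ?_⟩
  obtain ⟨m, m1, m2, m3⟩ := exists_med hx.1.symm (hx.1.symm.trans hz.1)
  have hm := h.med hx hz m1.symm m2
  have lx := lp_right hx m1.symm
  have lz := lp_right hz m2
  obtain ⟨e, e1, e2, e3⟩ := exists_switch (Q := fun v =>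
    ¬ Y.btw (s.σ^[t] m) (s.σ^[t] v) (s.σ^[t] z)) lx.1 hm.1 fun q => q (btw_left (lev_it t lz.1))
  obtain ⟨f, f1, f2, f3⟩ := exists_switch (Q := fun v =>
    ¬ Y.btw (s.σ^[t] m) (s.σ^[t] v) (s.σ^[t] x)) lz.1 hm.2.1 fun q => q (btw_left (lev_it t lx.1))
  rw [not_not] at e2 f2
  have a1 := lp_it1 lx e1.btw_tgt t
  have a2 := lp_it1 lz f1.btw_tgt t
  have n : ¬ s.LegalP (s.σ^[t] e.tgt) (s.σ^[t] f.tgt) := fun q =>
    hm.2.2 (lp_spread T (lp_it T lx t) (lp_it T lz t) a1 a2 e3 f3 q)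
  have hb : Y.btw e.tgt m f.tgt := (m3.trans_right' f1.btw_tgt).trans_left' e1.btw_tgt.symm
  have d1 := hC _ _ _ (lp_left lx e1.btw_src) lz (m3.trans_left' e1.btw_src.symm) t e2
  have d2 := hC _ _ _ (lp_left lz f1.btw_src) lx (m3.symm.trans_left' f1.btw_src.symm) t f2
  refine ⟨e.tgt, m, f.tgt, ⟨⟨m1.symm.trans_right' e1.btw_tgt, m1.symm.trans_right e1.btw_tgt⟩,
    m2.trans_right' f1.btw_tgt, m2.trans_right f1.btw_tgt⟩,
    ⟨hb, lp_left lx e1.btw_tgt, lp_left lz f1.btw_tgt, ⟨e.src, adj_dir e, e1.btw1, fun q => n ?_⟩,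
      f.src, adj_dir f, f1.btw1, fun q => n ?_⟩, ?_,
    fun q => e3 (a2.trans_left q), fun q => f3 (a1.trans_left q), n⟩
  · exact lp_cat (lp_it T (lp_adj (adj_dir e).symm) t) (lp_sub (lp_it T lz t) e2 a2) (lg_it q t)
  · exact lp_cat (lp_sub (lp_it T lx t) a1 f2) (lp_it T (lp_adj (adj_dir f)) t) (lg_it q t)
  · have := hb.dist_add
    have := e1.dist_src
    have := f1.dist_src
    have := dist_comm e.tgt m
    omega

lemma Tight.ne (h : Tight s x y z) : y ≠ x := by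
  rintro rfl
  obtain ⟨u, u1, u2, -⟩ := h.ex
  exact u1.ne u2.eq_of_self

/-- the centre of a tight sub-tripod is the median -/
lemma Sub.med (h : Sub (x, y, z) (x', m, z')) (t : Tight s x' m z') : Y.btw x m z :=
  ((h.1.2.trans_left' h.1.1).symm.glue' t.bt t.ne.symm).glue (h.2.2.trans_left' h.2.1) t.symm.ne

lemma Sub.swap (h : Sub (x, y, z) (x', m, z')) : Sub (z, y, x) (z', m, x') := ⟨h.2, h.1⟩

lemma sub_iter (T : s.TT) {k : ℕ} {γ : G} (hx : s.LegalP p.2.1 p.1) (hz : s.LegalP p.2.1 p.2.2)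
    (h : Sub (im s k p) (γ • p)) (n : ℕ) : Sub (im s (k * n) p) (γ ^ n • p) := by
  induction n with
  | zero => simpa [im] using ⟨⟨btw_left hx.1, btw_right hx.1⟩, btw_left hz.1, btw_right hz.1⟩
  | succ n ih =>
    rw [Nat.mul_succ, add_comm, im_add, pow_succ, mul_smul]
    refine (Sub.im (lp_it T hx _) (lp_it T hz _) ih k).trans ?_
    rw [im_smul]
    exact h.smul _

/-- the last dart of a periodic tight tripod carries a fixed point -/
lemma last_dart (T : s.TT) {k : ℕ} (hk : 0 < k) {γ : G} (t : Tight s x m z)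
    (h : Sub (im s k (x, m, z)) (γ • (x, m, z))) : ∃ e : Y.Dir, e.tgt = x ∧ Y.btw m e.src x ∧
      s.Desc k e (e.tr γ) ∧ γ • e.src ≠ s.σ^[k] e.src := by
  obtain ⟨u, u1, u2, u3⟩ := t.ex
  obtain ⟨e, rfl, rfl⟩ := adj_iff.1 u1
  have a1 : Y.btw (s.σ^[k] m) (γ • e.src) (γ • e.tgt) := h.1.1.trans_right (u2.smul γ)
  have n : ¬ Y.btw (s.σ^[k] m) (γ • e.src) (s.σ^[k] e.src) := fun q => by
    refine u3 (lg_of_mul T t.lx t.lz u2 hk fun n => ?_)
    have b1 := sub_iter T (p := (e.tgt, m, z)) t.lx t.lz h n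
    have b2 := sub_iter T (p := (e.src, m, z)) (lp_left t.lx u2) t.lz
      ⟨⟨h.1.1.trans_right' (u2.smul γ), q⟩, h.2⟩ n
    exact (Sub.med b1 (t.smul _)).trans_left
      ((lp_it1 t.lx u2 _).trans_left' (b2.1.2.trans_left b2.1.1)).symm
  have a2 := ((lp_it1 t.lx u2 k).total (h.1.2.trans_left a1)).resolve_right n
  refine ⟨e, rfl, u2, cross_iff_btw.2 ⟨?_, ?_⟩, fun q => n (q ▸ btw_right a1.lev1)⟩
  · rw [src_tr, tgt_tr]; exact a1.trans_left' a2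
  · rw [src_tr, tgt_tr]; exact h.1.2.trans_left' a1

theorem stFX : St_FX := by
  intro G _ d Y s hd T
  obtain ⟨C, hC⟩ := exists_tight hd T
  have hF := fo_tight T C
  obtain ⟨M, hM⟩ : ∃ M, ∀ x y z, Tight s x y z → Y.dist x z < C → Alive s M x y z →
      ∀ t, Alive s t x y z := by
    obtain ⟨F, F1, F2⟩ := hF
    have : ∀ q : Y.V × Y.V × Y.V, ∃ t, ¬ Alive s t q.1 q.2.1 q.2.2 ∨
        ∀ t, Alive s t q.1 q.2.1 q.2.2 := fun q => by
      by_cases h : ∀ t, Alive s t q.1 q.2.1 q.2.2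
      · exact ⟨0, Or.inr h⟩
      · exact (not_forall.1 h).imp fun _ => Or.inl
    choose τ hτ using this
    obtain ⟨M, hM⟩ := (F1.image τ).bddAbove
    refine ⟨M, fun x y z h1 h2 h3 t => ?_⟩
    obtain ⟨g, hg⟩ := F2 (x, y, z) ⟨h1, h2⟩
    have := (hτ _).resolve_left (not_not.2 ((h3.smul g).le T (lp_smul g h1.lx) (lp_smul g h1.lz)
      (hM ⟨_, hg, rfl⟩))) t
    simpa using this.smul g⁻¹
  let S : Set (Y.V × Y.V × Y.V) := {q | (Tight s q.1 q.2.1 q.2.2 ∧ Y.dist q.1 q.2.2 < C) ∧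
    ∀ t, Alive s t q.1 q.2.1 q.2.2}
  have hS : ∀ x y z, s.LegalP y x → s.LegalP y z → Alive s M x y z → ∃ q ∈ S, Sub (x, y, z) q :=
    fun x y z hx hz h =>
      let ⟨x', m, z', h1, h2, h3, h4⟩ := hC M x y z hx hz h
      ⟨(x', m, z'), ⟨⟨h2, h3⟩, hM _ _ _ h2 h3 h4⟩, h1⟩
  obtain ⟨k1, p1, q1⟩ := per_rel (S := S) (fun i p q => Sub (im s i p) q ∧
      s.LegalP p.2.1 p.1 ∧ s.LegalP p.2.1 p.2.2) (hF.mono fun _ h => h.1)
    (fun g q h => ⟨⟨h.1.1.smul g, (Forest.dist_smul g _ _).trans_lt h.1.2⟩,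
      fun t => (h.2 t).smul g⟩)
    (fun q h => ⟨⟨⟨btw_left h.1.1.lx.1, btw_right h.1.1.lx.1⟩, btw_left h.1.1.lz.1,
      btw_right h.1.1.lz.1⟩, h.1.1.lx, h.1.1.lz⟩)
    (fun q h => (hS _ _ _ (lp_it T h.1.1.lx 1) (lp_it T h.1.1.lz 1)
      (alive_add.1 (h.2 (M + 1)))).imp fun _ e => ⟨e.1, e.2, h.1.1.lx, h.1.1.lz⟩)
    (fun i p _ q r h h' => ⟨by
      rw [add_comm, im_add]
      exact (Sub.im (lp_it T h.2.1 i) (lp_it T h.2.2 i) h.1 1).trans h'.1, h.2⟩)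
    (fun g i p q h => ⟨im_smul i g p ▸ h.1.smul g, lp_smul g h.2.1, lp_smul g h.2.2⟩)
  obtain ⟨V, hV⟩ := finite_vert_orbits hd T.ne ⊤
  obtain ⟨k2, p2, q2⟩ := per_rel (G := G) (S := Set.univ) (fun i a b => b = s.σ^[i] a)
    ⟨V, V.finite_toSet, fun a _ => (hV a).imp fun _ h => h.2⟩ (fun _ _ _ => trivial)
    (fun _ _ => rfl) (fun _ _ => ⟨_, trivial, rfl⟩)
    (fun i a _ b c h h' => by rw [h', h]; exact (it_succ i a).symm) (fun g i a b h => by rw [h, it_smul])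
  refine ⟨k1 * k2, Nat.mul_pos p1 p2, fun k hk hd' =>
    ⟨⟨M, C, fun x y z hx hz h => ?_⟩, fun a => ?_⟩⟩
  · obtain ⟨q0, h0, h1⟩ := hS x y z hx hz h
    obtain ⟨⟨x', m, z'⟩, ⟨⟨t, hc⟩, -⟩, γ, h2, h3⟩ :=
      q1 k hk ((dvd_mul_right _ _).trans hd') q0 h0
    have h4 := (Sub.im (p := (x, y, z)) hx hz h1 k).trans h2.1
    obtain ⟨e, rfl, e1, e2⟩ := last_dart T hk t h3.1
    obtain ⟨e', rfl, e3, e4⟩ := last_dart T hk t.symm (Sub.swap h3.1)
    refine ⟨m, e, e', γ, ⟨(h4.1.2.trans_left h4.1.1).symm, h4.2.2.trans_left h4.2.1, h4.med t⟩,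
      cross_iff_btw.2 ⟨e1, (h4.1.2.trans_left' h4.1.1).trans_left' e1⟩,
      cross_iff_btw.2 ⟨e3, (h4.2.2.trans_left' h4.2.1).trans_left' e3⟩, hc.le,
      e2.1, e4.1, e2.2, e4.2⟩
  · obtain ⟨_, -, γ, rfl, h⟩ := q2 k hk ((dvd_mul_left _ _).trans hd') a trivial
    exact ⟨γ, h.symm⟩

end Pool.Agent.Lib.FBC.X5
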