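import Pool.Agent.Lib.FBC.X5.Base

set_option autoImplicit false
set_option linter.unusedVariables false

/-!
Tight tripods of bounded size lie in finitely many orbits; so do the indivisible Nielsen paths.
-/

namespace Pool.Agent.Lib.FBC.X5

open Forest T2

/-- finitely many orbits -/
def FO (G : Type) [Group G] {X : Type} [MulAction G X] (S : Set X) : Prop :=
  ∃ F : Set X, F.Finite ∧ ∀ x ∈ S, ∃ g : G, g • x ∈ F

variable {G : Type} [Group G]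

section
variable {X X' : Type} [MulAction G X] [MulAction G X'] {S S' : Set X}

lemma FO.mono (h : FO G S) (e : S' ⊆ S) : FO G S' :=
  let ⟨F, h1, h2⟩ := h; ⟨F, h1, fun x hx => h2 x (e hx)⟩

lemma FO.union (h : FO G S) (h' : FO G S') : FO G (S ∪ S') :=
  let ⟨F, h1, h2⟩ := h; let ⟨F', h3, h4⟩ := h'
  ⟨F ∪ F', h1.union h3, fun x hx => hx.elim (fun q => (h2 x q).imp fun g => Or.inl)
    fun q => (h4 x q).imp fun g => Or.inr⟩

lemma FO.ext (h : FO G S) (R : X → X' → Prop) (hR : ∀ (g : G) p x, R p x → R (g • p) (g • x))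
    (hf : ∀ p, {x | R p x}.Finite) : FO G {x | ∃ p ∈ S, R p x} :=
  let ⟨F, h1, h2⟩ := h
  ⟨⋃ p ∈ F, {x | R p x}, h1.biUnion fun p _ => hf p, fun x ⟨p, hp, q⟩ =>
    let ⟨g, hg⟩ := h2 p hp; ⟨g, Set.mem_biUnion hg (hR g p x q)⟩⟩

end

variable {d : Dg G} {Y : Forest d} {s : Flow Y} {a b u v w x y z m : Y.V}

/-- a set of neighbours without two elements in one orbit of the stabilizer is finite -/
lemma finite_nbr {S : Set Y.V} (h : ∀ x ∈ S, Adj v x)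
    (h' : ∀ x ∈ S, ∀ g : G, g • v = v → g • x ∈ S → g = 1) : S.Finite := by
  have : {e : Y.Dir | e.src = v ∧ e.tgt ∈ S}.Finite := by
    refine Set.Finite.of_finite_image (f := fun e => (e.1.i, e.2)) (Set.toFinite _) ?_
    rintro e ⟨e1, e2⟩ e' ⟨e3, e4⟩ q
    obtain ⟨q1, q2⟩ := Prod.ext_iff.1 q
    have : e' = e.tr (e'.1.g * e.1.g⁻¹) := Prod.ext (eq_smul_of_i q1) q2.symm
    have h1 := h' _ e2 (e'.1.g * e.1.g⁻¹) (by rw [← e1, ← src_tr, ← this, e1, e3])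
      (by rw [← tgt_tr, ← this]; exact e4)
    rw [this, h1, tr_one]
  refine (this.image Dir.tgt).subset fun x hx => ?_
  obtain ⟨e, e1, e2⟩ := adj_iff.1 (h x hx)
  exact ⟨e, ⟨e1, e2 ▸ hx⟩, e2⟩

/-- gates are finite -/
lemma finite_gate {S : Set Y.V} (h : ∀ x ∈ S, Adj v x)
    (h' : ∀ x ∈ S, ∀ x' ∈ S, ¬ s.Legal x v x') : S.Finite := by
  refine finite_nbr h fun x hx g hg hgx => by_contra fun hne => h' x hx _ hgx fun n => ?_
  have l := lev_it (s := s) n (h x hx).lev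
  have l' := lev_it (s := s) n (h _ hgx).lev
  by_cases e : s.σ^[n] v = s.σ^[n] x
  · exact e ▸ btw_left l'
  obtain ⟨a, ha⟩ := exists_First l e
  refine (first_or ha l').resolve_left fun q => hne ?_
  have := ha.tr g
  rw [← it_smul, ← it_smul, hg] at this
  exact eq_one_of_tr (congrArg Prod.fst (this.unique q))

/-- the last inner vertices of the legal arms do not survive -/
structure Tight (s : Flow Y) (x y z : Y.V) : Prop where
  bt : Y.btw x y z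
  lx : s.LegalP y x
  lz : s.LegalP y z
  ex : ∃ u, Adj u x ∧ Y.btw y u x ∧ ¬ s.Legal x u z
  ez : ∃ w, Adj w z ∧ Y.btw y w z ∧ ¬ s.Legal x w z

lemma Tight.symm (h : Tight s x y z) : Tight s z y x :=
  ⟨h.bt.symm, h.lz, h.lx, h.ez.imp fun _ q => ⟨q.1, q.2.1, fun e => q.2.2 (lg_symm e)⟩,
    h.ex.imp fun _ q => ⟨q.1, q.2.1, fun e => q.2.2 (lg_symm e)⟩⟩

lemma lg_smul (g : G) : s.Legal (g • x) (g • y) (g • z) ↔ s.Legal x y z := by
  simp only [Flow.Legal, it_smul, btw_smul]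

lemma Tight.smul (h : Tight s x y z) (g : G) : Tight s (g • x) (g • y) (g • z) :=
  ⟨h.bt.smul g, lp_smul g h.lx, lp_smul g h.lz,
    let ⟨u, q⟩ := h.ex; ⟨g • u, q.1.smul g, q.2.1.smul g, mt (lg_smul g).1 q.2.2⟩,
    let ⟨u, q⟩ := h.ez; ⟨g • u, q.1.smul g, q.2.1.smul g, mt (lg_smul g).1 q.2.2⟩⟩

lemma exists_pen (l : Y.lev y = Y.lev x) (hne : y ≠ x) : ∃ u, Adj u x ∧ Y.btw y u x :=
  let ⟨e, e1, e2⟩ := exists_last l hne; ⟨e.src, e1 ▸ adj_dir e, e2.btw_src⟩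

lemma late (T : s.TT) (hx : s.LegalP y x) (hz : s.LegalP y z) (hu : Y.btw y u x)
    (h : ¬ s.Legal x u z) : ∀ᶠ t in Filter.atTop, ¬ Y.btw (s.σ^[t] x) (s.σ^[t] u) (s.σ^[t] z) :=
  let ⟨t, ht⟩ := not_forall.1 h
  Filter.eventually_atTop.2 ⟨t, fun _ l => per_le T hx hz hu l ht⟩

lemma late' (T : s.TT) (hx : s.LegalP y x) (hz : s.LegalP y z) (hu : Y.btw y w z)
    (h : ¬ s.Legal x w z) : ∀ᶠ t in Filter.atTop, ¬ Y.btw (s.σ^[t] x) (s.σ^[t] w) (s.σ^[t] z) :=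
  (late T hz hx hu fun e => h (lg_symm e)).mono fun _ q e => q e.symm

/-- prolongation of the last arm by one edge -/
def Ext (s : Flow Y) (p q : Y.V × Y.V × Y.V) : Prop :=
  q.1 = p.1 ∧ q.2.1 = p.2.1 ∧ Adj p.2.2 q.2.2 ∧ s.LegalP q.2.1 q.1 ∧ s.LegalP q.2.1 q.2.2 ∧
    Y.btw q.2.1 p.2.2 q.2.2 ∧ ¬ s.Legal q.1 p.2.2 q.2.2

lemma FO.ext2 (T : s.TT) {S : Set (Y.V × Y.V × Y.V)} (h : FO G S) :
    FO G {q | ∃ p ∈ S, Ext s p q} := by
  refine h.ext _ (fun g p q e => ⟨congrArg (g • ·) e.1, congrArg (g • ·) e.2.1, e.2.2.1.smul g,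
    lp_smul g e.2.2.2.1, lp_smul g e.2.2.2.2.1, e.2.2.2.2.2.1.smul g,
    mt (lg_smul g).1 e.2.2.2.2.2.2⟩) fun ⟨x, y, w⟩ => ?_
  have : {z | Ext s (x, y, w) (x, y, z)}.Finite := by
    refine finite_gate (s := s) (v := w) (fun z e => e.2.2.1) fun z e z' e' q => ?_
    obtain ⟨t, h1, h2⟩ := ((late' T e.2.2.2.1 e.2.2.2.2.1 e.2.2.2.2.2.1 e.2.2.2.2.2.2).and
      (late' T e'.2.2.2.1 e'.2.2.2.2.1 e'.2.2.2.2.2.1 e'.2.2.2.2.2.2)).exists
    exact ((q t).cover (lev_it t (e.2.2.2.2.1.1.symm.trans e.2.2.2.1.1))).elim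
      (fun e => h1 e.symm) h2
  refine (this.image fun z => (x, y, z)).subset ?_
  rintro ⟨_, _, z⟩ ⟨rfl, rfl, e⟩
  exact ⟨z, ⟨rfl, rfl, e⟩, rfl⟩

lemma FO.free1 {S : Set (Y.V × Y.V × Y.V)} (h : FO G S) :
    FO G {q : Y.V × Y.V × Y.V |
      ∃ p ∈ S, q.2 = p.2 ∧ Adj p.1 q.1 ∧ ∀ g : G, g • p.1 = p.1 → g = 1} := by
  refine h.ext _ (fun g p q e => ⟨congrArg (g • ·) e.1, e.2.1.smul g, fun k hk => ?_⟩)
    fun ⟨u, p⟩ => ?_
  · have := e.2.2 (g⁻¹ * k * g) (by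
      rw [mul_smul, mul_smul, inv_smul_eq_iff]; exact hk)
    rwa [mul_assoc, inv_mul_eq_one, eq_comm, mul_eq_right] at this
  · have : {x | Adj u x ∧ ∀ g : G, g • u = u → g = 1}.Finite :=
      finite_nbr (v := u) (fun _ e => e.1) fun _ e g hg _ => e.2 g hg
    refine (this.image fun x => (x, p)).subset ?_
    rintro ⟨x, _⟩ ⟨rfl, e⟩
    exact ⟨x, e, rfl⟩

lemma fo_adj : FO G {q : Y.V × Y.V × Y.V | Adj q.2.1 q.1 ∧ q.2.2 = q.2.1} := by
  obtain ⟨S, hS⟩ := finite_dir_orbits (Y := Y) ⊤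
  refine ⟨(fun e : Y.Dir => (e.tgt, e.src, e.src)) '' S, S.finite_toSet.image _, ?_⟩
  rintro ⟨x, y, z⟩ ⟨h, h'⟩
  dsimp only at h h'
  subst h'
  obtain ⟨e, rfl, rfl⟩ := adj_iff.1 h
  obtain ⟨g, -, hg⟩ := hS e
  exact ⟨g, e.tr g, hg, by simp⟩

lemma not_btw_of (h1 : Y.btw y w x) (h2 : Y.btw y v w) (hne : v ≠ w) : ¬ Y.btw x v w := fun e =>
  hne ((h1.trans_left' h2).antisymm' e.symm)

/-- the case in which the left arm is overtaken -/
lemma Tight.cut (T : s.TT) (h : Tight s x y z) (hu : Adj u x) (hu' : Y.btw y u x)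
    (hw : Y.btw y w z) {t : ℕ} (q1 : Y.btw (s.σ^[t] y) (s.σ^[t] w) (s.σ^[t] x))
    (q2 : Y.btw (s.σ^[t] y) (s.σ^[t] u) (s.σ^[t] w)) (hne : s.σ^[t] u ≠ s.σ^[t] w) :
    Tight s x y w := by
  have hyw : y ≠ w := by
    rintro rfl
    exact hne q2.eq_of_self
  obtain ⟨v, v1, v2⟩ := exists_pen hw.lev1 hyw
  have lw := lp_left h.lz hw
  exact ⟨h.bt.trans_right' hw, h.lx, lw, ⟨u, hu, hu', fun e => not_btw_of q1 q2 hne (e t)⟩,
    v, v1, v2, fun e => not_btw_of q1 (lp_it1 lw v2 t) (exp_ne T (lp_adj v1) v1.ne t) (e t)⟩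

theorem fo_tight (T : s.TT) (r : ℕ) :
    FO G {q : Y.V × Y.V × Y.V | Tight s q.1 q.2.1 q.2.2 ∧ Y.dist q.1 q.2.2 < r} := by
  induction r with
  | zero => exact ⟨∅, Set.finite_empty, fun _ h => absurd h.2 (Nat.not_lt_zero _)⟩
  | succ r ih =>
    have h1 := ((ih.union ih.free1).union fo_adj).ext2 T
    have h2 := h1.ext (fun p q : Y.V × Y.V × Y.V => q = (p.2.2, p.2.1, p.1))
      (fun g p q e => e ▸ rfl) fun p => by simp
    refine (h1.union h2).mono ?_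
    rintro ⟨x, y, z⟩ ⟨h, hr⟩
    dsimp only at h hr
    obtain ⟨u, u1, u2, u3⟩ := h.ex
    obtain ⟨w, w1, w2, w3⟩ := h.ez
    have e1 : Ext s (x, y, w) (x, y, z) := ⟨rfl, rfl, w1, h.lx, h.lz, w2, w3⟩
    have e2 : Ext s (z, y, u) (z, y, x) :=
      ⟨rfl, rfl, u1, h.lz, h.lx, u2, fun e => u3 (lg_symm e)⟩
    have d1 : Y.dist x w < r := by
      have := (h.bt.trans_right w2).dist_add
      have := w1.dist
      omega
    have d2 : Y.dist z u < r := by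
      have := (h.bt.symm.trans_right u2).dist_add
      have := u1.dist
      have := dist_comm x z
      omega
    obtain ⟨t, t1, t2⟩ := ((late T h.lx h.lz u2 u3).and (late' T h.lx h.lz w2 w3)).exists
    have a1 := lp_it1 h.lx u2 t
    have a2 := lp_it1 h.lz w2 t
    have b1 := (a1.cover a2.lev3).resolve_right fun e => t1 e.symm
    have b2 := (a2.cover a1.lev3).resolve_right t2
    by_cases hne : s.σ^[t] u = s.σ^[t] w
    swap
    · rcases a1.total b2 with e | e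
      · exact Or.inl ⟨_, Or.inl (Or.inl ⟨h.cut T u1 u2 w2 b2 e hne, d1⟩), e1⟩
      · exact Or.inr ⟨_, ⟨_, Or.inl (Or.inl ⟨h.symm.cut T w1 w2 u2 b1 e (Ne.symm hne), d2⟩), e2⟩,
          rfl⟩
    have lu := lp_left h.lx u2
    have lw := lp_left h.lz w2
    by_cases hy : y = u
    · have : y = w := by_contra fun e => exp_ne T lw e t (hy ▸ hne)
      exact Or.inl ⟨_, Or.inr ⟨hy ▸ u1, this.symm⟩, e1⟩
    have hy' : y ≠ w := fun e => exp_ne T lu hy t (e ▸ hne.symm)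
    obtain ⟨u', p1, p2⟩ := exists_pen lu.1 hy
    obtain ⟨w', p3, p4⟩ := exists_pen lw.1 hy'
    have hb : Y.btw u y w := (h.bt.trans_right' w2).trans_left' u2.symm
    have ht : Tight s u y w := ⟨hb, lu, lw,
      ⟨u', p1, p2, fun e => exp_ne T (lp_adj p1) p1.ne t (btw.eq_of_self (by
        have := e t; rwa [← hne] at this))⟩,
      w', p3, p4, fun e => exp_ne T (lp_adj p3) p3.ne t (hne ▸ e t).eq_of_self⟩
    have d3 : Y.dist u w < r := ((h.bt.trans_right' w2).trans_left u2.symm).dist_le'.trans_lt d1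
    by_cases f : ∀ g : G, g • u = u → g = 1
    · exact Or.inl ⟨(x, y, w), Or.inl (Or.inr ⟨(u, y, w), ⟨ht, d3⟩, rfl, u1, f⟩), e1⟩
    refine Or.inr ⟨_, ⟨(z, y, u), Or.inl (Or.inr ⟨(w, y, u), ⟨ht.symm, dist_comm u w ▸ d3⟩, rfl,
      w1, fun g hg => by_contra fun hg' => ?_⟩), e2⟩, rfl⟩
    obtain ⟨k, hk⟩ := not_forall.1 f
    obtain ⟨k1, k2⟩ := Classical.not_imp.1 hk
    have : u = w := s.iter_inj_of_fix t k2 hg' k1 hg hne
    exact hy' (this ▸ hb).eq_of_self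

lemma it_fix {γ : G} (h : s.σ a = γ • a) (n : ℕ) : s.σ^[n] a = γ ^ n • a := by
  induction n with
  | zero => simp
  | succ n ih => rw [it_succ, ih, σ_smul, h, pow_succ, mul_smul]

theorem stFIN : St_FIN := by
  intro G _ d Y s hd T
  obtain ⟨C, hC⟩ := s.exists_bcc hd 1
  obtain ⟨F, F1, F2⟩ := fo_tight T (2 * C + 1)
  refine ⟨(F1.image fun q => (q.1, q.2.2)).toFinset, fun p y q ⟨h1, h2, h3, h4, γ, h5, h6⟩ => ?_⟩
  have k : ∀ {u v : Y.V}, Adj u v → Y.btw p v q → (v = p ∨ v = q) → ¬ s.Legal p u q := by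
    intro u v a1 a2 a3 a4
    have := exp_lt T (lp_adj a1) a1.ne (Y.dist p q)
    have e := (a4 (Y.dist p q)).dist_add
    rcases a3 with rfl | rfl
    · rw [Forest.dist_comm (s.σ^[_] u)] at this
      rw [it_fix h5, it_fix h6, Forest.dist_smul, ← it_fix h5] at e
      omega
    · rw [it_fix h5, it_fix h6, Forest.dist_smul, ← it_fix h6] at e
      omega
  obtain ⟨u, u1, u2⟩ := exists_pen h2.1.symm (by rintro rfl; exact h4 h3)
  obtain ⟨w, w1, w2⟩ := exists_pen h3.1 (by rintro rfl; exact h4 h2)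
  have ht : Tight s p y q := ⟨h1, lp_symm h2, h3,
    ⟨u, u1, u2, k u1 (btw_left h1.lev3) (.inl rfl)⟩, w, w1, w2, k w1 (btw_right h1.lev3) (.inr rfl)⟩
  obtain ⟨m, hm⟩ := exists_med (lev_σ (s := s) h1.lev3) (lev_σ h1.lev1)
  have c1 : Y.dist (s.σ y) m ≤ C := hC p y q m h1 hm
  have c2 := exp_σ T h2
  have c3 := exp_σ T h3
  have c4 := hm.1.dist_add
  have c5 := hm.2.1.symm.dist_add
  have c6 := hm.2.2.dist_add
  have c7 := h1.dist_add
  have c8 := dist_comm m (s.σ y)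
  have c9 : Y.dist (s.σ p) (s.σ q) = Y.dist p q := by rw [h5, h6, Forest.dist_smul]
  obtain ⟨g, hg⟩ := F2 (p, y, q) ⟨ht, by dsimp only; omega⟩
  exact ⟨g, by simpa using ⟨g • y, hg⟩⟩

end Pool.Agent.Lib.FBC.X5
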